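import Mathlib
import Pool.Agent.H38.AB.Targets
import Pool.Agent.H82.RD.Targets4

/-!
# abc for 100 percent of all triples ordered by radical (MP_7ecdd4_nt, n = 3): definitions
-/

set_option autoImplicit false

open Pool.Agent.H38.RB Pool.Agent.H38.PS Pool.Agent.H82.RD Pool.Agent.H38.AB

namespace Pool.Agent.H38.AG

/-! ## linear algebra -/

/-- the vectors supported on `Q` -/
def sp0 {ι : Type} (Q : Finset ι) : Submodule ℚ (ι → ℚ) where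
  carrier := {v | ∀ i, i ∉ Q → v i = 0}
  add_mem' := fun {a b} ha hb i hi => by rw [Pi.add_apply, ha i hi, hb i hi, add_zero]
  zero_mem' := fun _ _ => rfl
  smul_mem' := fun c a ha i hi => by rw [Pi.smul_apply, ha i hi, smul_zero]

/-- the dimension of the space of the vectors of `Λ` supported on `Q` -/
noncomputable def DD {ι : Type} (Λ : Submodule ℚ (ι → ℚ)) (Q : Finset ι) : ℕ :=
  Module.finrank ℚ ↥(Λ ⊓ sp0 Q)

/-! ## relations modulo a prime power -/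

/-- `V` is a relation between the elements of `J` modulo `q ^ e` -/
def Rl (q e Bd : ℕ) (J : Finset ℕ) (V : ℕ → ℤ) : Prop :=
  (∀ u, |V u| ≤ (Bd : ℤ)) ∧
    (∏ u ∈ J, u ^ (V u).toNat) ^ 2 ≡ (∏ u ∈ J, u ^ (-V u).toNat) ^ 2 [MOD q ^ e]

/-- the space spanned by the relations -/
noncomputable def Lam (q e Bd : ℕ) (J : Finset ℕ) : Submodule ℚ (J → ℚ) :=
  Submodule.span ℚ {v | ∃ V : ℕ → ℤ, Rl q e Bd J V ∧ v = fun u : J => ((V u : ℤ) : ℚ)}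

/-- the dimension of the space of the combinations of relations supported on `Q` -/
noncomputable def DQ (q e Bd : ℕ) (J Q : Finset ℕ) : ℕ :=
  DD (Lam q e Bd J) (Finset.univ.filter fun u : J => (u : ℕ) ∈ Q)

/-- a relation modulo `q ^ e` between `m`, the primes in `R` and the primes in `S` -/
def Dpc (q e Bd : ℕ) (S : Finset ℕ) (m : ℕ) (R : Finset ℕ) : Prop :=
  ∃ V : ℕ → ℤ, (∀ p, |V p| ≤ (Bd : ℤ)) ∧ (∀ p ∈ R, V p ≠ 0) ∧
    (∏ p ∈ S ∪ R, p ^ (V p).toNat) ^ 2 ≡ (m * ∏ p ∈ S ∪ R, p ^ (-V p).toNat) ^ 2 [MOD q ^ e]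

/-- two numbers with supports `B` and `C` are congruent, up to sign, modulo `q ^ e` -/
def RP (q e Bd : ℕ) (B C : Finset ℕ) : Prop :=
  ∃ β : ℕ → ℕ, (∀ p ∈ B ∪ C, 1 ≤ β p ∧ β p ≤ Bd) ∧
    (∏ p ∈ B, p ^ β p) ^ 2 ≡ (∏ p ∈ C, p ^ β p) ^ 2 [MOD q ^ e]

/-! ## energy modulo `S`-units -/

/-- the image in the unit group of a box of exponents -/
noncomputable def Hb (M : ℕ) [NeZero M] (S : Finset ℕ) (V : ℕ) : Finset (ZMod M)ˣ := by
  classical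
  exact Finset.univ.filter fun z => ∃ α γ : ℕ → ℕ, (∀ u, α u ≤ V ∧ γ u ≤ V) ∧
    (z : ZMod M) * ∏ u ∈ S, (u : ZMod M) ^ α u = ∏ u ∈ S, (u : ZMod M) ^ γ u

/-- coincidences of `(∏ f) h`, `h ∈ H` -/
noncomputable def EW {G : Type} [CommGroup G] [DecidableEq G] {k : ℕ} (B : Fin k → Finset ℕ)
    (f : Fin k → ℕ → G) (H : Finset G) : ℝ :=
  (((((Fintype.piFinset B) ×ˢ (Fintype.piFinset B)) ×ˢ (H ×ˢ H)).filter
    (fun t => (∏ j, f j (t.1.1 j)) * t.2.1 = (∏ j, f j (t.1.2 j)) * t.2.2)).card : ℝ)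

/-! ## triples -/

/-- the reduced triples: small radical, all three entries have a large radical, there are few
small primes and few primes altogether -/
def Rd (X ρ : ℝ) : Set (Fin 3 → ℤ) :=
  {x | Adm x ∧ (pd (pr x).primeFactors : ℝ) ≤ X ∧
    (∀ i, X ^ (1 / 3 - ρ) ≤ (pd (x i).natAbs.primeFactors : ℝ)) ∧
    (pd ((pr x).primeFactors.filter fun p => (p : ℝ) ≤ Real.log X ^ 30) : ℝ) ≤ X ^ ρ ∧
    ((pr x).primeFactors.card : ℝ) * Real.log (Real.log X) ≤ ρ * Real.log X}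

/-- class 1: a light key -/
def K1 (X c κ : ℝ) (x : Fin 3 → ℤ) : Prop :=
  ∃ (a b d : Fin 3) (T : Finset ℕ) (q : ℕ), a ≠ b ∧ a ≠ d ∧ b ≠ d ∧
    T ⊆ (x a).natAbs.primeFactors ∧ q ∈ T ∧ (pd T : ℝ) ≤ X ^ (c / 2) ∧
    Real.log (ht x) ^ (3 / 4 : ℝ) ≤ ((x a).natAbs.factorization q : ℝ) ∧
    x ∈ Sol κ (T ∪ ((x b).natAbs.primeFactors ∪ (x d).natAbs.primeFactors))

/-- class 2: many primes can be removed -/
def K2 (X c κ : ℝ) (x : Fin 3 → ℤ) : Prop :=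
  ∃ T : Finset ℕ, (∀ p ∈ T, p.Prime) ∧ (pd T : ℝ) ≤ X ^ (2 / 3 - c) ∧ x ∈ Sol κ T

/-- class 3: few heavy primes -/
def K3 (X : ℝ) (h : ℕ) (κ c K : ℝ) (x : Fin 3 → ℤ) : Prop :=
  ∃ (a b d : Fin 3) (q : ℕ) (S : Finset ℕ), a ≠ b ∧ a ≠ d ∧ b ≠ d ∧
    q ∈ (x a).natAbs.primeFactors ∧
    S ⊆ (x b).natAbs.primeFactors ∪ (x d).natAbs.primeFactors ∧
    (((x b).natAbs.primeFactors ∪ (x d).natAbs.primeFactors) \ S).card ≤ h ∧
    (q : ℝ) * pd S ≤ X ^ (2 / 3 - c) ∧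
    Real.log X ^ K ≤ ((x a).natAbs.factorization q : ℝ) ∧
    x ∈ Sol κ (insert q ((x b).natAbs.primeFactors ∪ (x d).natAbs.primeFactors))

/-- class 4: few heavy primes and a small entry -/
def K4 (X : ℝ) (h : ℕ) (κ c K' K : ℝ) (x : Fin 3 → ℤ) : Prop :=
  ∃ (a b d : Fin 3) (q : ℕ) (S : Finset ℕ), a ≠ b ∧ a ≠ d ∧ b ≠ d ∧
    q ∈ (x b).natAbs.primeFactors ∧ S ⊆ (x d).natAbs.primeFactors ∧
    ((x d).natAbs.primeFactors \ S).card ≤ h ∧ (q : ℝ) * pd S ≤ X ^ (2 / 3 - c) ∧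
    Real.log ((x a).natAbs : ℝ) ≤ Real.log X ^ K' ∧
    Real.log X ^ K ≤ ((x b).natAbs.factorization q : ℝ) ∧
    x ∈ Sol κ (insert q (x d).natAbs.primeFactors)

end Pool.Agent.H38.AG
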