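import Mathlib
import Pool.Agent.H38.AG.Defs

/-!
# abc for 100 percent of all triples ordered by radical (MP_7ecdd4_nt, n = 3): targets

Every `T_XXX : Prop` is to be proved as a theorem `pf_XXX : T_XXX` in its own file, other targets
being hypotheses.
-/

set_option autoImplicit false

open Pool.Agent.H38.RB Pool.Agent.H38.PS Pool.Agent.H82.RD Pool.Agent.H38.AB

namespace Pool.Agent.H38.AG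

/-! ## Linear algebra -/

/-- MGZ: a set of small weight on which the vectors of `Λ` are determined. -/
def T_MGZ : Prop := ∀ (ι : Type) [Fintype ι] [DecidableEq ι] (Λ : Submodule ℚ (ι → ℚ))
  (ν : ι → ℝ) (c : ι → ℕ), (∀ Q : Finset ι, (DD Λ Q : ℝ) ≤ ∑ i ∈ Q, ν i) →
  ∃ Z : Finset ι, (∀ v ∈ Λ, (∀ i ∈ Z, v i = 0) → v = 0) ∧
    ∑ i ∈ Z, (c i : ℝ) ≤ ∑ i, ν i * c i

/-- MSP: the number of supports of the vectors of a space. -/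
def T_MSP : Prop := ∀ (ι : Type) [Fintype ι] [DecidableEq ι] (E : Submodule ℚ (ι → ℚ))
  (F : Finset (Finset ι)), (∀ R ∈ F, ∃ v ∈ E, ∀ i, v i ≠ 0 ↔ i ∈ R) →
  F.card ≤ (Fintype.card ι + 1) ^ Module.finrank ℚ E

/-- MCN: contraction of the dense part. -/
def T_MCN : Prop := ∀ (ι : Type) [Fintype ι] [DecidableEq ι] (Λ : Submodule ℚ (ι → ℚ))
  (μ : ι → ℝ) (b : ℝ), (∀ i, 0 ≤ μ i) → 0 ≤ b →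
  (∀ Q : Finset ι, (DD Λ Q : ℝ) ≤ ∑ i ∈ Q, μ i + b) →
  ∃ (Q₀ : Finset ι) (Λ' : Submodule ℚ (ι → ℚ)), ∑ i ∈ Q₀, μ i ≤ b ∧
    (∀ v ∈ Λ, (fun i => if i ∈ Q₀ then 0 else v i) ∈ Λ') ∧
    ∀ Q : Finset ι, (DD Λ' Q : ℝ) ≤ 2 * ∑ i ∈ Q, μ i

/-- MAT: the number of supports of light vectors. -/
def T_MAT : Prop := ∀ (ι : Type) [Fintype ι] [DecidableEq ι] (Λ : Submodule ℚ (ι → ℚ))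
  (F : Finset (Finset ι)) (μ : ι → ℝ) (b m₀ : ℝ), (∀ i, 0 ≤ μ i) → 0 ≤ b → 0 ≤ m₀ →
  (∀ Q : Finset ι, (DD Λ Q : ℝ) ≤ ∑ i ∈ Q, μ i + b) →
  (∀ R ∈ F, (∃ v ∈ Λ, ∀ i, v i ≠ 0 ↔ i ∈ R) ∧ ∑ i ∈ R, μ i ≤ m₀) →
  ∃ Q₀ : Finset ι, ∑ i ∈ Q₀, μ i ≤ b ∧
    ((F.image fun R => R \ Q₀).card : ℝ) ≤ 2 * ((Fintype.card ι : ℝ) + 1) ^ (8 * m₀)

/-! ## The machine for spaces of relations -/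

/-- PIV: a pivot minor of minimal valuation. -/
def T_PIV : Prop := ∀ (q : ℕ) [Fact q.Prime] (ι : Type) [Fintype ι] [DecidableEq ι] (d Bd : ℕ)
  (U : Fin d → ι → ℤ), LinearIndependent ℚ (fun i => fun l => ((U i l : ℤ) : ℚ)) →
  (∀ i l, |U i l| ≤ (Bd : ℤ)) →
  ∃ (P : Fin d → ι) (Δ : ℤ) (a : Fin d → Fin d → ℤ) (C : Fin d → ι → ℤ_[q]),
    Function.Injective P ∧ Δ ≠ 0 ∧ |Δ| ≤ ((d.factorial * Bd ^ d : ℕ) : ℤ) ∧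
    (∀ j l, |∑ i, a j i * U i l| ≤ ((d.factorial * Bd ^ d : ℕ) : ℤ)) ∧
    (∀ j j', ∑ i, a j i * U i (P j') = if j = j' then Δ else 0) ∧
    ∀ j l, (Δ : ℤ_[q]) * C j l = ((∑ i, a j i * U i l : ℤ) : ℤ_[q])

/-- RDH: the data of the machine for the exponent vectors supported on `Q`. -/
def T_RDH : Prop := ∀ (q : ℕ) [Fact q.Prime] (e Bd T c : ℕ) (J Q : Finset ℕ), Q ⊆ J →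
  1 ≤ T → 1 ≤ Bd → (∀ u ∈ J, 2 ≤ u ∧ u.Coprime q) →
  (∀ u ∈ J, ∀ u' ∈ J, u ≠ u' → u.Coprime u') →
  ∃ (r κ : ℕ) (W : (Q → ℕ) → Fin r → ℤ_[q]) (den : (Q → ℕ) → ℕ) (num : (Q → ℕ) → Fin r → ℤ)
    (ζ : Fin r → ℤ_[q]) (U : Submodule ℚ_[q] (Fin r → ℚ_[q])),
    q ^ κ ≤ q * (J.card.factorial * Bd ^ J.card) ∧
    MHyp q r (Kaq q T c Q) W (fun k => ∏ p : Q, (p : ℕ) ^ k p) den num ζ κ (e - 3)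
      (1 + qh q) ((J.card + 1) * T * (J.card.factorial * Bd ^ J.card)) ((∏ p ∈ Q, p) ^ T) ∧
    (∀ s s', (fun l => ((W s l - W s' l : ℤ_[q]) : ℚ_[q])) ∈ U) ∧
    Module.finrank ℚ_[q] U + DQ q e Bd J Q ≤ Q.card

/-- RLM: the machine for spaces of relations. -/
def T_RLM : Prop := ∀ (q : ℕ) [Fact q.Prime] (e Bd T A B : ℕ) (J Q : Finset ℕ), Q ⊆ J →
  1 ≤ T → 1 ≤ Bd → 1 ≤ A → 2 ≤ B → (∀ u ∈ J, 2 ≤ u ∧ u.Coprime q) →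
  (∀ u ∈ J, ∀ u' ∈ J, u ≠ u' → u.Coprime u') →
  (∀ κ : ℕ, q ^ κ ≤ q * (J.card.factorial * Bd ^ J.card) → 2 * (A * B + κ) ≤ e - 3 ∧
    (∏ p ∈ Q, p) ^ T < q ^ (e - 3 - κ)) →
  (∀ u : ℕ, 1 ≤ u → u ≤ Q.card →
    NC q A B ((J.card + 1) * T * (J.card.factorial * Bd ^ J.card)) ((∏ p ∈ Q, p) ^ T) u) →
  ∃ r : ℕ, r + DQ q e Bd J Q ≤ Q.card ∧
    (T + 1) ^ Q.card ≤ 4 * q * ((r + 1) * B * ((r + 1) * A) ^ r)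

/-- RLP: few relations, small modulus. -/
def T_RLP : Prop := ∀ (h : ℕ) (K' : ℝ), 1 ≤ K' → ∃ K X₀ : ℝ, 1 ≤ K ∧ 2 ≤ X₀ ∧
  ∀ (X : ℝ) (q e Bd : ℕ) (J Q : Finset ℕ), X₀ ≤ X → q.Prime → (q : ℝ) ≤ X → Q ⊆ J →
  (∀ u ∈ J, 2 ≤ u ∧ u.Coprime q ∧ Real.log u ≤ Real.log X ^ K') →
  (∀ u ∈ J, ∀ u' ∈ J, u ≠ u' → u.Coprime u') → (J.card : ℝ) ≤ Real.log X ^ 5 → 1 ≤ Bd →
  (Bd : ℝ) ≤ X ^ 62 → Real.log X ^ K ≤ (e : ℝ) →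
  (DQ q e Bd J Q : ℝ) ≤ Q.card / (4 * ((h : ℝ) + 1)) + Real.log X

/-- RLL: few relations, large modulus. -/
def T_RLL : Prop := ∃ K X₀ : ℝ, 1 ≤ K ∧ 2 ≤ X₀ ∧
  ∀ (X ℓ : ℝ) (q e Bd : ℕ) (J Q : Finset ℕ), X₀ ≤ X → K * Real.log (Real.log X) ≤ ℓ →
  ℓ ≤ 30 * Real.log X → q.Prime → (q : ℝ) ≤ X → Q ⊆ J →
  (∀ u ∈ J, u.Prime ∧ u ≠ q ∧ (u : ℝ) ≤ X) → (J.card : ℝ) ≤ Real.exp (ℓ / 5000) → 1 ≤ Bd →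
  (Bd : ℝ) ≤ X ^ 62 → Real.exp (ℓ / 2) ≤ (e : ℝ) →
  (DQ q e Bd J Q : ℝ) ≤ ∑ u ∈ Q, (90 * Real.log (min (u : ℝ) (Real.exp (ℓ / 5000) + 1)) +
    30 * Real.log (Real.log X)) / ℓ + Real.log X

/-! ## Few heavy primes -/

/-- CNG: the number of pairs of a number and a set of few primes which satisfy a relation. -/
def T_CNG : Prop := ∀ (h : ℕ) (K' : ℝ), 1 ≤ K' → ∃ K X₀ : ℝ, 1 ≤ K ∧ 2 ≤ X₀ ∧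
  ∀ (X : ℝ) (q e Bd w : ℕ) (S : Finset ℕ) (F : Finset (ℕ × Finset ℕ)), X₀ ≤ X → q.Prime →
  (q : ℝ) ≤ X → Real.log X ^ (K' + 1) ≤ (Bd : ℝ) → (Bd : ℝ) ≤ X ^ 62 →
  Real.log X ^ K ≤ (e : ℝ) → (∀ p ∈ S, p.Prime ∧ p ≠ q ∧ (p : ℝ) ≤ X) →
  (S.card : ℝ) + w ≤ 2 * Real.log X →
  (∀ f ∈ F, 1 ≤ f.1 ∧ Real.log f.1 ≤ Real.log X ^ K' ∧ f.1.Coprime q ∧
    (∀ p ∈ f.1.primeFactors, p ∉ S ∧ p ∉ f.2 ∧ (p : ℝ) ≤ X) ∧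
    (∀ p ∈ f.2, p.Prime ∧ p ≠ q ∧ p ∉ S ∧ (p : ℝ) ≤ X) ∧ f.2.card ≤ h ∧
    f.1.primeFactors.card + f.2.card ≤ w ∧ Dpc q e Bd S f.1 f.2) →
  (F.card : ℝ) ≤ (Real.log X ^ (K' + 10)) ^ w

/-! ## The smooth part -/

/-- TUP: tuples with small product. -/
def T_TUP : Prop := ∀ (w : ℕ) (Y : ℝ), 1 ≤ Y →
  {j : Fin w → ℕ | (∀ i, 1 ≤ j i) ∧ ((∏ i, j i : ℕ) : ℝ) ≤ Y}.Finite ∧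
  ({j : Fin w → ℕ | (∀ i, 1 ≤ j i) ∧ ((∏ i, j i : ℕ) : ℝ) ≤ Y}.ncard : ℝ) ≤
    Y * (1 + Real.log Y) ^ w

/-- ROJ: the number of dependent sets in a given set of primes. -/
def T_ROJ : Prop := ∀ η : ℝ, 0 < η → ∃ K ρ X₀ : ℝ, 1 ≤ K ∧ 0 < ρ ∧ 2 ≤ X₀ ∧
  ∀ (X ℓ m₁ : ℝ) (q e Bd : ℕ) (S P : Finset ℕ) (F : Finset (Finset ℕ)), X₀ ≤ X →
  K * Real.log (Real.log X) ≤ ℓ → ℓ ≤ 30 * Real.log X → q.Prime → (q : ℝ) ≤ X →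
  (Bd : ℝ) ≤ X ^ 62 → 1 ≤ Bd → Real.exp (ℓ / 2) ≤ (e : ℝ) → Disjoint S P →
  (∀ p ∈ S ∪ P, p.Prime ∧ p ≠ q ∧ (p : ℝ) ≤ X) →
  ((S ∪ P).card : ℝ) ≤ Real.exp (ℓ / 5000) → (S.card : ℝ) ≤ Real.log X → 0 ≤ m₁ →
  (∀ R ∈ F, R ⊆ P ∧ (∀ p ∈ R, Real.log X ^ 30 < (p : ℝ)) ∧
    (R.card : ℝ) * Real.log (Real.log X) ≤ ρ * Real.log X ∧
    ∑ p ∈ R, Real.log (min (p : ℝ) (Real.exp (ℓ / 5000) + 1)) ≤ m₁ ∧ Dpt q e Bd S R) →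
  (F.card : ℝ) ≤ X ^ η * Real.exp (3 / 20 * m₁)

/-- RO1: the number of dependent sets without large primes. -/
def T_RO1 : Prop := ∀ η : ℝ, 0 < η → ∃ K ρ X₀ : ℝ, 1 ≤ K ∧ 0 < ρ ∧ 2 ≤ X₀ ∧
  ∀ (X ℓ Zt Zm : ℝ) (q e Bd : ℕ) (S : Finset ℕ) (F : Finset (Finset ℕ)), X₀ ≤ X →
  K * Real.log (Real.log X) ≤ ℓ → ℓ ≤ 30 * Real.log X → q.Prime → (q : ℝ) ≤ X →
  (Bd : ℝ) ≤ X ^ 62 → 1 ≤ Bd → Real.exp (ℓ / 2) ≤ (e : ℝ) →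
  (∀ p ∈ S, p.Prime ∧ p ≠ q ∧ (p : ℝ) ≤ X) → (S.card : ℝ) ≤ Real.log X →
  1 ≤ Zt → 1 ≤ Zm → Zt ≤ X → Zm ≤ X →
  (∀ R ∈ F, Disjoint S R ∧ (∀ p ∈ R, p.Prime ∧ p ≠ q ∧ (p : ℝ) ≤ X ∧
      Real.log X ^ 30 < (p : ℝ) ∧ (p : ℝ) ≤ Real.exp (100 * ℓ)) ∧
    (R.card : ℝ) * Real.log (Real.log X) ≤ ρ * Real.log X ∧
    (pd (R.filter fun p => (p : ℝ) ≤ Real.exp (ℓ / 10000)) : ℝ) ≤ Zt ∧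
    (pd (R.filter fun p => ¬ (p : ℝ) ≤ Real.exp (ℓ / 10000)) : ℝ) ≤ Zm ∧
    Zm ≤ 2 * (pd (R.filter fun p => ¬ (p : ℝ) ≤ Real.exp (ℓ / 10000)) : ℝ) ∧
    Dpt q e Bd S R) →
  (F.card : ℝ) ≤ X ^ η * Zt ^ (1 / 4 : ℝ) * Zm ^ (1 - 1 / 10000000 : ℝ)

/-! ## The rough part -/

/-- HGW: Hölder's inequality with a weight. -/
def T_HGW : Prop := ∀ (G : Type) [CommGroup G] [Fintype G] [DecidableEq G] (k : ℕ)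
  (B : Fin k → Finset ℕ) (f : Fin k → ℕ → G) (n : Fin k → ℕ) (H : Finset G), H.Nonempty →
  (∀ j, 1 ≤ n j) → ∑ j, (1 : ℝ) / n j ≤ 1 →
  EW B f H ≤ (H.card : ℝ) ^ (1 - ∑ j, (1 : ℝ) / n j) *
    ∏ j, (EW (fun _ : Fin (n j) => B j) (fun _ => f j) H) ^ ((1 : ℝ) / n j)

/-- EGW: energy of a product of dyadic boxes, with a weight. -/
def T_EGW : Prop := ∀ (G : Type) [CommGroup G] [Fintype G] [DecidableEq G] (k S : ℕ)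
  (B : Fin k → Finset ℕ) (f : Fin k → ℕ → G) (s n : Fin k → ℕ) (τ : ℝ) (H : Finset G),
  H.Nonempty → 1 ≤ τ → (∀ j, 1 ≤ s j) → S = ∑ j, s j →
  (∀ j, S ≤ s j * n j ∧ 1 ≤ n j ∧ n j ≤ S) →
  (∀ j, EW (fun _ : Fin (n j) => B j) (fun _ => f j) H ≤
    H.card * (((2 : ℝ) ^ s j) ^ n j * (n j).factorial * τ)) →
  EW B f H ≤ H.card * (2 ^ S * ((S : ℝ) + 1) ^ k * τ)

/-- BOX: boxes of `S`-units. -/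
def T_BOX : Prop := ∀ (M V : ℕ) [NeZero M] (S : Finset ℕ), (∀ u ∈ S, u.Coprime M) →
  1 ∈ Hb M S V ∧ (∀ z ∈ Hb M S V, z⁻¹ ∈ Hb M S V) ∧
  (∀ (V' : ℕ) (z z' : (ZMod M)ˣ), z ∈ Hb M S V → z' ∈ Hb M S V' → z * z' ∈ Hb M S (V + V')) ∧
  (Hb M S (2 * V)).card ≤ 2 ^ S.card * (Hb M S V).card

/-- ETS: two-sided energy inequality. -/
def T_ETS : Prop := ∀ (G ι ι' : Type) [CommGroup G] [Fintype G] [DecidableEq G] [DecidableEq ι]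
  [DecidableEq ι'] (A : Finset ι) (A' : Finset ι') (f : ι → G) (f' : ι' → G) (H₁ H₂ : Finset G),
  H₁ ⊆ H₂ → (∀ g ∈ H₁, ∀ h ∈ H₁, g * h ∈ H₂) →
  (((A ×ˢ A').filter (fun t => ∃ z ∈ H₁, f t.1 = z * f' t.2)).card : ℝ) * H₁.card ≤
    Real.sqrt ((((A ×ˢ A) ×ˢ (H₂ ×ˢ H₂)).filter
      (fun t => f t.1.1 * t.2.1 = f t.1.2 * t.2.2)).card : ℝ) *
    Real.sqrt ((((A' ×ˢ A') ×ˢ (H₂ ×ˢ H₂)).filter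
      (fun t => f' t.1.1 * t.2.1 = f' t.1.2 * t.2.2)).card : ℝ)

/-- EDH: the data of the machine for products of numbers of a class. -/
def T_EDH : Prop := ∀ (q : ℕ) [Fact q.Prime] (e τ c v Bd PB : ℕ) (S P : Finset ℕ), 1 ≤ τ →
  1 ≤ v → v ≤ Bd → (∀ l ∈ S, l.Coprime q) → (∀ p ∈ P, 1 ≤ p ∧ p ≤ PB ∧ p.Coprime q) →
  (∀ p ∈ P, ∀ p' ∈ P, ∃ α γ : ℕ → ℕ, (∀ l, α l ≤ Bd ∧ γ l ≤ Bd) ∧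
    p ^ v * ∏ l ∈ S, l ^ α l ≡ p' ^ v * ∏ l ∈ S, l ^ γ l [MOD q ^ e]) →
  ∃ (κ : ℕ) (W : ℕ → Fin S.card → ℤ_[q]) (den : ℕ → ℕ) (num : ℕ → Fin S.card → ℤ)
    (ζ : Fin S.card → ℤ_[q]), q ^ κ ≤ q * v ∧
    MHyp q S.card (((Fintype.piFinset fun _ : Fin τ => P).image fun t => ∏ i, t i).filter
      fun n => n % qh q = c) W (fun n => n) den num ζ κ (e - 3) (1 + qh q) (τ * Bd) (PB ^ τ)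

/-- ECM: the classes modulo `S`-units are small. -/
def T_ECM : Prop := ∀ γ : ℝ, 0 < γ → ∃ K ρ X₀ : ℝ, 1 ≤ K ∧ 0 < ρ ∧ 2 ≤ X₀ ∧
  ∀ (X : ℝ) (q e v Bd n : ℕ) (S P : Finset ℕ), X₀ ≤ X → q.Prime → (q : ℝ) ≤ X →
  Real.log X ^ K ≤ (e : ℝ) → 1 ≤ v → v ≤ Bd → (Bd : ℝ) ≤ X ^ 70 →
  (∀ l ∈ S, l.Coprime q) → (S.card : ℝ) * Real.log (Real.log X) ≤ ρ * Real.log X →
  (n : ℝ) ≤ ρ * Real.log X →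
  (∀ p ∈ P, 1 ≤ p ∧ (p : ℝ) ≤ X ^ 10 ∧ p.Coprime q ∧ p.primeFactorsList.length = n) →
  (∀ p ∈ P, ∀ p' ∈ P, ∃ α γ : ℕ → ℕ, (∀ l, α l ≤ Bd ∧ γ l ≤ Bd) ∧
    p ^ v * ∏ l ∈ S, l ^ α l ≡ p' ^ v * ∏ l ∈ S, l ^ γ l [MOD q ^ e]) →
  (P.card : ℝ) ≤ X ^ γ

/-- EN1: moments of one dyadic box modulo `S`-units. -/
def T_EN1 : Prop := ∀ (q e s n v V : ℕ) [NeZero (q ^ e)] (S : Finset ℕ) (τ : ℝ)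
  (f : ℕ → (ZMod (q ^ e))ˣ), q.Prime → 1 ≤ e → 1 ≤ v → 0 ≤ τ → (∀ l ∈ S, l.Coprime q) →
  (∀ p : ℕ, p.Coprime q → ((f p : (ZMod (q ^ e))ˣ) : ZMod (q ^ e)) = (p : ZMod (q ^ e)) ^ v) →
  (∀ P : Finset ℕ, (∀ p ∈ P, 1 ≤ p ∧ p ≤ 2 ^ ((s + 1) * n) ∧ p.Coprime q ∧
      p.primeFactorsList.length = n) →
    (∀ p ∈ P, ∀ p' ∈ P, ∃ α γ : ℕ → ℕ, (∀ l, α l ≤ 4 * V ∧ γ l ≤ 4 * V) ∧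
      p ^ v * ∏ l ∈ S, l ^ α l ≡ p' ^ v * ∏ l ∈ S, l ^ γ l [MOD q ^ e]) → (P.card : ℝ) ≤ τ) →
  EW (fun _ : Fin n => Dy q s) (fun _ => f) (Hb (q ^ e) S V) ≤
    (Hb (q ^ e) S V).card * (((2 : ℝ) ^ s) ^ n * n.factorial * τ)

/-- ENP: energy of a pattern modulo `S`-units. -/
def T_ENP : Prop := ∀ γ : ℝ, 0 < γ → ∃ K ρ X₀ : ℝ, 1 ≤ K ∧ 0 < ρ ∧ 2 ≤ X₀ ∧
  ∀ (X : ℝ) (q e V k : ℕ) [NeZero (q ^ e)] (v s : Fin k → ℕ) (S : Finset ℕ)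
  (f : Fin k → ℕ → (ZMod (q ^ e))ˣ), X₀ ≤ X → q.Prime → (q : ℝ) ≤ X →
  Real.log X ^ K ≤ (e : ℝ) → (∀ l ∈ S, l.Coprime q) →
  (S.card : ℝ) * Real.log (Real.log X) ≤ ρ * Real.log X →
  (∀ j, 1 ≤ v j ∧ v j ≤ V ∧ 1 / ρ ≤ (s j : ℝ)) → (2 : ℝ) ^ (∑ j, s j) ≤ X →
  (V : ℝ) ≤ X ^ 64 →
  (∀ j, ∀ p : ℕ, p.Coprime q →
    ((f j p : (ZMod (q ^ e))ˣ) : ZMod (q ^ e)) = (p : ZMod (q ^ e)) ^ v j) →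
  EW (fun j => Dy q (s j)) f (Hb (q ^ e) S V) ≤
    (Hb (q ^ e) S V).card * (2 ^ (∑ j, s j) * (((∑ j, s j : ℕ) : ℝ) + 1) ^ k * X ^ γ)

/-- RO2: the number of pairs of sets of large primes. -/
def T_RO2 : Prop := ∃ K ρ X₀ : ℝ, 1 ≤ K ∧ 0 < ρ ∧ 2 ≤ X₀ ∧
  ∀ (X ℓ Zb Zc : ℝ) (q e Bd : ℕ) (S : Finset ℕ) (F : Finset (Finset ℕ × Finset ℕ)), X₀ ≤ X →
  K * Real.log (Real.log X) ≤ ℓ → ℓ ≤ 30 * Real.log X → q.Prime → (q : ℝ) ≤ X →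
  (Bd : ℝ) ≤ Real.exp (2 * ℓ) → Real.exp (ℓ / 2) ≤ (e : ℝ) → (∀ p ∈ S, p.Prime ∧ p ≠ q) →
  (S.card : ℝ) * Real.log (Real.log X) ≤ ρ * Real.log X → 1 ≤ Zb → 1 ≤ Zc → Zb * Zc ≤ X →
  (∀ f ∈ F, Disjoint f.1 f.2 ∧ Disjoint S (f.1 ∪ f.2) ∧
    (∀ p ∈ f.1 ∪ f.2, p.Prime ∧ p ≠ q ∧ Real.exp (100 * ℓ) < (p : ℝ)) ∧
    (pd f.1 : ℝ) ≤ Zb ∧ (pd f.2 : ℝ) ≤ Zc ∧
    ∃ α γ β : ℕ → ℕ, (∀ p, α p ≤ Bd ∧ γ p ≤ Bd) ∧ (∀ p ∈ f.1 ∪ f.2, 1 ≤ β p ∧ β p ≤ Bd) ∧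
      ((∏ p ∈ S, p ^ α p) * ∏ p ∈ f.1, p ^ β p) ^ 2 ≡
        ((∏ p ∈ S, p ^ γ p) * ∏ p ∈ f.2, p ^ β p) ^ 2 [MOD q ^ e]) →
  (F.card : ℝ) ≤ X ^ (1 / 20 : ℝ) * (Zb * Zc) ^ (1 / 2 : ℝ)

/-! ## Supports of two entries -/

/-- RC: the number of pairs of supports of two entries, given a prime power dividing the third. -/
def T_RC : Prop := ∃ c K ρ X₀ : ℝ, 0 < c ∧ c ≤ 1 / 100 ∧ 1 ≤ K ∧ 0 < ρ ∧ 2 ≤ X₀ ∧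
  ∀ (X ℓ : ℝ) (q e Bd : ℕ) (F : Finset (Finset ℕ × Finset ℕ)), X₀ ≤ X →
  K * Real.log (Real.log X) ≤ ℓ → ℓ ≤ 30 * Real.log X → q.Prime → (q : ℝ) ≤ X → 1 ≤ Bd →
  (Bd : ℝ) ≤ Real.exp (2 * ℓ) → Real.exp (ℓ / 2) ≤ (e : ℝ) →
  (∀ f ∈ F, Disjoint f.1 f.2 ∧ (∀ p ∈ f.1 ∪ f.2, p.Prime ∧ p ≠ q ∧ (p : ℝ) ≤ X) ∧
    (pd (f.1 ∪ f.2) : ℝ) ≤ X ^ (2 / 3 + c) ∧ X ^ (3 / 5 : ℝ) ≤ (pd (f.1 ∪ f.2) : ℝ) ∧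
    (pd ((f.1 ∪ f.2).filter fun p => (p : ℝ) ≤ Real.log X ^ 30) : ℝ) ≤ X ^ (1 / 100 : ℝ) ∧
    ((f.1 ∪ f.2).card : ℝ) * Real.log (Real.log X) ≤ ρ * Real.log X ∧ RP q e Bd f.1 f.2) →
  (F.card : ℝ) ≤ X ^ (2 / 3 - c)

/-! ## Classes of triples of large height -/

/-- K1C: the triples of class 1. -/
def T_K1C : Prop := ∃ c₃ K₀ ρ : ℝ, 0 < c₃ ∧ c₃ ≤ 1 / 100 ∧ 1 ≤ K₀ ∧ 0 < ρ ∧ ∀ κ : ℝ, κ < 1 →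
  ∃ c C : ℝ, 0 < c ∧ 0 < C ∧ ∀ X : ℝ, 2 ≤ X →
  {x | x ∈ Rd X ρ ∧ Real.log X ^ K₀ ≤ Real.log (ht x) ∧ K1 X c₃ κ x}.Finite ∧
  ({x | x ∈ Rd X ρ ∧ Real.log X ^ K₀ ≤ Real.log (ht x) ∧ K1 X c₃ κ x}.ncard : ℝ) ≤
    C * X ^ (2 / 3 - c)

/-- K3C: the triples of class 3. -/
def T_K3C : Prop := ∀ (h : ℕ) (κ c : ℝ), κ < 1 → 0 < c → ∃ K ρ c' C : ℝ, 1 ≤ K ∧ 0 < ρ ∧
  0 < c' ∧ 0 < C ∧ ∀ X : ℝ, 2 ≤ X → {x | x ∈ Rd X ρ ∧ K3 X h κ c K x}.Finite ∧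
  ({x | x ∈ Rd X ρ ∧ K3 X h κ c K x}.ncard : ℝ) ≤ C * X ^ (2 / 3 - c')

/-- K4C: the triples of class 4. -/
def T_K4C : Prop := ∀ (h : ℕ) (κ c K' : ℝ), κ < 1 → 0 < c → 1 ≤ K' →
  ∃ K ρ c' C : ℝ, 1 ≤ K ∧ 0 < ρ ∧ 0 < c' ∧ 0 < C ∧ ∀ X : ℝ, 2 ≤ X →
  {x | x ∈ Rd X ρ ∧ K4 X h κ c K' K x}.Finite ∧
  ({x | x ∈ Rd X ρ ∧ K4 X h κ c K' K x}.ncard : ℝ) ≤ C * X ^ (2 / 3 - c')

/-- BPK: packing of small items. -/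
def T_BPK : Prop := ∀ (E : Finset ℕ) (w : ℕ → ℝ) (δ : ℝ), 0 < δ → (∀ p ∈ E, 0 ≤ w p) →
  (∀ p ∈ E, w p ≤ δ) → ∃ (n : ℕ) (g : Fin n → Finset ℕ), (n : ℝ) ≤ (∑ p ∈ E, w p) / δ + 1 ∧
  (∀ i, g i ⊆ E ∧ ∑ p ∈ g i, w p ≤ 2 * δ) ∧ ∀ p ∈ E, ∃ i, p ∈ g i

/-- SLK: a light key, or the light primes of every entry have small weight. -/
def T_SLK : Prop := ∀ c₃ κ' : ℝ, 0 < c₃ → c₃ ≤ 1 / 100 → 0 < κ' → κ' ≤ 1 / 100 →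
  ∃ K₀ ρ X₀ : ℝ, 1 ≤ K₀ ∧ 0 < ρ ∧ 2 ≤ X₀ ∧
  ∀ (X : ℝ) (x : Fin 3 → ℤ), X₀ ≤ X → x ∈ Rd X ρ → Real.log X ^ K₀ ≤ Real.log (ht x) →
  K1 X c₃ (1 - κ') x ∨ ∀ a : Fin 3,
    Real.log (tp ((x a).natAbs.primeFactors.filter fun p => (p : ℝ) ≤ X ^ (c₃ / 4))
      (x a).natAbs : ℝ) ≤ 6 * κ' / c₃ * Real.log (ht x)

/-- SLB: every reduced triple of large height is in one of the classes. -/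
def T_SLB : Prop := ∀ c₃ : ℝ, 0 < c₃ → c₃ ≤ 1 / 100 → ∃ (κ c : ℝ) (h : ℕ), κ < 1 ∧ 0 < c ∧
  ∀ K₃ K₄ : ℝ, 1 ≤ K₃ → 1 ≤ K₄ → ∃ K₀ ρ X₀ : ℝ, 1 ≤ K₀ ∧ 0 < ρ ∧ 2 ≤ X₀ ∧
  ∀ (X : ℝ) (x : Fin 3 → ℤ), X₀ ≤ X → x ∈ Rd X ρ → Real.log X ^ K₀ ≤ Real.log (ht x) →
  K1 X c₃ κ x ∨ K2 X c κ x ∨ K3 X h κ c K₃ x ∨ K4 X h κ c (K₃ + 3) K₄ x

/-- RGB: the reduced triples of large height. -/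
def T_RGB : Prop := ∃ K₀ ρ c C : ℝ, 1 ≤ K₀ ∧ 0 < ρ ∧ 0 < c ∧ 0 < C ∧ ∀ X : ℝ, 2 ≤ X →
  {x | x ∈ Rd X ρ ∧ Real.log X ^ K₀ ≤ Real.log (ht x)}.Finite ∧
  ({x | x ∈ Rd X ρ ∧ Real.log X ^ K₀ ≤ Real.log (ht x)}.ncard : ℝ) ≤ C * X ^ (2 / 3 - c)

/-! ## Triples of moderate height -/

/-- CJG: the triples with two primes with large exponents, general form. -/
def T_CJG : Prop := ∀ (D : ℕ) (ε : ℝ), 1 ≤ D → 0 < ε → ∃ C : ℝ, 0 < C ∧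
  ∀ (X Z : ℝ) (Ω V : ℕ), 2 ≤ X → 0 ≤ Z → (V : ℝ) ≤ X ^ ε →
  {x | x ∈ Fw X Ω V ∧ PJ D Z x}.Finite ∧
  ({x | x ∈ Fw X Ω V ∧ PJ D Z x}.ncard : ℝ) ≤ C * Z * X ^ (100 * ε) * Lo 11 X Ω V

/-- NUS: the loss is small. -/
def T_NUS : Prop := ∀ K₀ ε : ℝ, 1 ≤ K₀ → 0 < ε → ∃ ρ C : ℝ, 0 < ρ ∧ 1 ≤ C ∧
  ∀ (X : ℝ) (Ω V : ℕ), 16 ≤ X → (Ω : ℝ) * Real.log (Real.log X) ≤ ρ * Real.log X →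
  (V : ℝ) ≤ 5 * Real.log X ^ K₀ → Lo 11 X Ω V ≤ C * X ^ ε

/-- SLS: every reduced triple is in one of the classes. -/
def T_SLS : Prop := ∃ (D : ℕ) (A₀ ρ : ℝ), 1 ≤ D ∧ 1 ≤ A₀ ∧ 0 < ρ ∧
  ∀ (X : ℝ) (x : Fin 3 → ℤ), 2 ≤ X → x ∈ Rd X ρ → A₀ * Real.log X ≤ Real.log (ht x) →
  PA X x ∨ PE X (X ^ (2 / 3 - 1 / 100 : ℝ)) x ∨ PJ D (X ^ (1 / 2 : ℝ)) x

/-- RGS: the reduced triples of moderate height. -/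
def T_RGS : Prop := ∀ K₀ : ℝ, 1 ≤ K₀ → ∃ A₀ ρ c C : ℝ, 1 ≤ A₀ ∧ 0 < ρ ∧ 0 < c ∧ 0 < C ∧
  ∀ X : ℝ, 2 ≤ X →
  {x | x ∈ Rd X ρ ∧ A₀ * Real.log X ≤ Real.log (ht x) ∧
    Real.log (ht x) ≤ Real.log X ^ K₀}.Finite ∧
  ({x | x ∈ Rd X ρ ∧ A₀ * Real.log X ≤ Real.log (ht x) ∧
    Real.log (ht x) ≤ Real.log X ^ K₀}.ncard : ℝ) ≤ C * X ^ (2 / 3 - c)

/-! ## Reduction -/

/-- FIP: triples for which the radical of the `i`-th entry is given. -/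
def T_FIP : Prop := ∀ ε : ℝ, 0 < ε → ∃ C : ℝ, 0 < C ∧ ∀ (i : Fin 3) (s : ℕ) (R : ℝ), 1 ≤ s →
  1 ≤ R → {x | Adm x ∧ pd (x i).natAbs.primeFactors = s ∧
    (pd (pr x).primeFactors : ℝ) ≤ s * R}.Finite ∧
  ({x | Adm x ∧ pd (x i).natAbs.primeFactors = s ∧
    (pd (pr x).primeFactors : ℝ) ≤ s * R}.ncard : ℝ) ≤ C * (s * R) ^ ε * R ^ (1 / 2 : ℝ)

/-- RD1: the triples with an entry of small radical. -/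
def T_RD1 : Prop := ∀ c₁ : ℝ, 0 < c₁ → ∃ c C : ℝ, 0 < c ∧ 0 < C ∧ ∀ X : ℝ, 1 ≤ X →
  {x | Adm x ∧ (pd (pr x).primeFactors : ℝ) ≤ X ∧
    ∃ i, (pd (x i).natAbs.primeFactors : ℝ) ≤ X ^ (1 / 3 - c₁)}.Finite ∧
  ({x | Adm x ∧ (pd (pr x).primeFactors : ℝ) ≤ X ∧
    ∃ i, (pd (x i).natAbs.primeFactors : ℝ) ≤ X ^ (1 / 3 - c₁)}.ncard : ℝ) ≤
    C * X ^ (2 / 3 - c)

/-- RKN: numbers with a large smooth part. -/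
def T_RKN : Prop := ∀ K δ : ℝ, 1 ≤ K → 0 < δ → ∃ C : ℝ, 0 < C ∧ ∀ X Z : ℝ, 3 ≤ X → 0 ≤ Z →
  (((Finset.Icc 1 ⌊Z⌋₊).filter fun s => Squarefree s ∧
    X ^ δ ≤ (pd (s.primeFactors.filter fun p => (p : ℝ) ≤ Real.log X ^ K) : ℝ)).card : ℝ) ≤
    C * Z * X ^ (-(δ / (4 * K)))

/-- RD2: the triples with an entry with a large smooth part. -/
def T_RD2 : Prop := ∀ K δ : ℝ, 1 ≤ K → 0 < δ → ∃ c₁ c C : ℝ, 0 < c₁ ∧ 0 < c ∧ 0 < C ∧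
  ∀ X : ℝ, 3 ≤ X →
  {x | Adm x ∧ (pd (pr x).primeFactors : ℝ) ≤ X ∧
    (∀ i, X ^ (1 / 3 - c₁) ≤ (pd (x i).natAbs.primeFactors : ℝ)) ∧
    ∃ i, X ^ δ ≤ (pd ((x i).natAbs.primeFactors.filter
      fun p => (p : ℝ) ≤ Real.log X ^ K) : ℝ)}.Finite ∧
  ({x | Adm x ∧ (pd (pr x).primeFactors : ℝ) ≤ X ∧
    (∀ i, X ^ (1 / 3 - c₁) ≤ (pd (x i).natAbs.primeFactors : ℝ)) ∧
    ∃ i, X ^ δ ≤ (pd ((x i).natAbs.primeFactors.filter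
      fun p => (p : ℝ) ≤ Real.log X ^ K) : ℝ)}.ncard : ℝ) ≤ C * X ^ (2 / 3 - c)

/-- OMG: few prime factors. -/
def T_OMG : Prop := ∀ θ : ℝ, 0 < θ → ∃ K δ X₀ : ℝ, 30 ≤ K ∧ 0 < δ ∧ δ ≤ θ ∧ 2 ≤ X₀ ∧
  ∀ (X : ℝ) (E : Finset ℕ), X₀ ≤ X → (∀ p ∈ E, p.Prime) → (pd E : ℝ) ≤ X →
  (pd (E.filter fun p => (p : ℝ) ≤ Real.log X ^ K) : ℝ) ≤ X ^ (3 * δ) →
  (E.card : ℝ) * Real.log (Real.log X) ≤ θ * Real.log X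

/-- RED: the triples which are not reduced. -/
def T_RED : Prop := ∀ ρ : ℝ, 0 < ρ → ∃ c C : ℝ, 0 < c ∧ 0 < C ∧ ∀ X : ℝ, 2 ≤ X →
  {x | Adm x ∧ (pd (pr x).primeFactors : ℝ) ≤ X ∧ x ∉ Rd X ρ}.Finite ∧
  ({x | Adm x ∧ (pd (pr x).primeFactors : ℝ) ≤ X ∧ x ∉ Rd X ρ}.ncard : ℝ) ≤
    C * X ^ (2 / 3 - c)

/-- GGG: abc for 100 percent of all triples. -/
def T_GGG : Prop := ∃ c C : ℝ, 0 < c ∧ 0 < C ∧ ∀ X : ℝ, 1 ≤ X →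
  {x | Adm x ∧ (pd (pr x).primeFactors : ℝ) ≤ X ∧ pd (pr x).primeFactors < ht x}.Finite ∧
  ({x | Adm x ∧ (pd (pr x).primeFactors : ℝ) ≤ X ∧ pd (pr x).primeFactors < ht x}.ncard : ℝ) ≤
    C * X ^ (2 / 3 - c)

end Pool.Agent.H38.AG
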