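import Mathlib
import Pool.Agent.H38.AE.Statement

/-!
# The height of 100 percent of all admissible triples ordered by radical: statement

`MP_7ecdd4_nt`, `n = 3`.
-/

set_option autoImplicit false

namespace Pool.Agent.H38.AG

open Pool.Agent.H38.AE.Statement

/-- The admissible triples, of any height, with radical of the product at most `X`. -/
def All (X : ℝ) : Set (Fin 3 → ℤ) :=
  {x | Admissible x ∧ (radical (∏ i, x i) : ℝ) ≤ X}

/-- The admissible triples, of any height, with radical of the product at most `X`, some entry of
which is larger than the `M`-th power of this radical. -/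
def Violators (M X : ℝ) : Set (Fin 3 → ℤ) :=
  {x | Admissible x ∧ (radical (∏ i, x i) : ℝ) ≤ X ∧
    ∃ i, (radical (∏ i, x i) : ℝ) ^ M < |(x i : ℝ)|}

end Pool.Agent.H38.AG
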