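import Pool.Agent.H38.AG.Targets
import Pool.Agent.H19.AB.CLJ

/-!
# Board `allg_modules`, module CJG: the triples with two primes with large exponents
-/

set_option autoImplicit false

open Pool.Agent.H38.RB Pool.Agent.H38.PS Pool.Agent.H82.RD Pool.Agent.H38.AB Pool.Agent.H38.AG
open Pool.Agent.H19.AB

namespace Pool.Agent.H38.AG

theorem cjg_log {X : ℝ} {Ω V : ℕ} (hX : 2 ≤ X) {m : ℕ} (hm : m ∈ Nf X Ω V) :
    m ≠ 0 ∧ Real.log m ≤ V * Real.log X := by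
  classical
  have h0 := (Finset.mem_Icc.1 (Finset.mem_filter.1 hm).1)
  refine ⟨by have := h0.1; omega, ?_⟩
  rw [← Real.log_pow]
  refine Real.log_le_log (by have := h0.1; positivity) ?_
  have h2 : (m : ℝ) ≤ ((⌊X⌋₊ ^ V : ℕ) : ℝ) := by exact_mod_cast h0.2
  refine h2.trans ?_
  push_cast
  exact pow_le_pow_left₀ (Nat.cast_nonneg _) (Nat.floor_le (by linarith)) _

theorem pf_CJG (hNSU : T_NSU) (hHAU : T_HAU) : T_CJG := by
  classical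
  intro D ε hD hε
  obtain ⟨ε1, hε1⟩ : ∃ ε1, ε1 = 3 * ε := ⟨_, rfl⟩
  have hε1p : 0 < ε1 := by rw [hε1]; positivity
  obtain ⟨Ch, hCh, hau⟩ := hHAU D ε1 hD hε1p
  obtain ⟨K', hK'⟩ : ∃ K' : ℝ, K' = (1 + 1 / ε) ^ (1 / ε1) := ⟨_, rfl⟩
  have hε' : 0 < 1 / ε := by positivity
  have hK'1 : 1 ≤ K' := by
    rw [hK']
    exact Real.one_le_rpow (by linarith) (by positivity)
  have hK'e : K' ^ ε1 = 1 + 1 / ε := by
    rw [hK', ← Real.rpow_mul (by linarith), one_div_mul_cancel hε1p.ne', Real.rpow_one]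
  refine ⟨288 * (Ch * K' ^ (10 * ε1)), by positivity, ?_⟩
  intro X Z Ω V hX hZ hV
  have hX0 : 0 < X := by linarith
  obtain ⟨n, hn⟩ : ∃ n, n = ⌊X⌋₊ := ⟨_, rfl⟩
  have hn1 : 1 ≤ n := by
    rw [hn]
    exact Nat.le_floor (by push_cast; linarith)
  have hnX : (n : ℝ) ≤ X := by
    rw [hn]
    exact Nat.floor_le hX0.le
  obtain ⟨X', hX'⟩ : ∃ X', X' = K' * X := ⟨_, rfl⟩
  have hXX' : X ≤ X' := by
    rw [hX']
    exact le_mul_of_one_le_left hX0.le hK'1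
  have hX'2 : 2 ≤ X' := hX.trans hXX'
  have hlogX : 0 ≤ Real.log X := Real.log_nonneg (by linarith)
  have hVr : (0 : ℝ) ≤ V := Nat.cast_nonneg _
  have hXe1 : 1 ≤ X ^ ε := Real.one_le_rpow (by linarith) hε.le
  have hX'e : X' ^ ε1 = (1 + 1 / ε) * (X ^ ε * X ^ ε * X ^ ε) := by
    rw [hX', Real.mul_rpow (by linarith) hX0.le, hK'e, ← Real.rpow_add hX0, ← Real.rpow_add hX0]
    congr 2
    rw [hε1]
    ring
  have hlogle : Real.log X ≤ 1 / ε * X ^ ε := by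
    have := Real.log_le_rpow_div hX0.le hε
    rw [one_div_mul_eq_div]
    exact this
  have hVX : (V : ℝ) ≤ X' ^ ε1 := by
    rw [hX'e]
    have hy0 : 0 ≤ X ^ ε := by linarith
    have h0 : X ^ ε ≤ X ^ ε * X ^ ε := le_mul_of_one_le_left hy0 hXe1
    have h1 : X ^ ε * X ^ ε ≤ X ^ ε * X ^ ε * X ^ ε :=
      le_mul_of_one_le_right (mul_nonneg hy0 hy0) hXe1
    have h2 : 0 ≤ 1 / ε * (X ^ ε * X ^ ε * X ^ ε) := by positivity
    linarith
  have hVL : (V : ℝ) * Real.log X ≤ X' ^ ε1 := by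
    rw [hX'e]
    have h1 : (V : ℝ) * Real.log X ≤ X ^ ε * (1 / ε * X ^ ε) :=
      mul_le_mul hV hlogle hlogX (by positivity)
    have h2 : X ^ ε * (1 / ε * X ^ ε) ≤ 1 / ε * (X ^ ε * X ^ ε * X ^ ε) := by
      have : X ^ ε * (1 / ε * X ^ ε) = 1 / ε * (X ^ ε * X ^ ε) := by ring
      rw [this]
      exact mul_le_mul_of_nonneg_left (le_mul_of_one_le_right (by positivity) hXe1) hε'.le
    have h3 : 0 ≤ X ^ ε * X ^ ε * X ^ ε := by positivity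
    linarith
  have hb := Pool.Agent.H18.AB.base_ge V hX
  obtain ⟨l, hl⟩ : ∃ l, l = Nat.log 2 n := ⟨_, rfl⟩
  have hlLo : (((V : ℝ) + 1) * ((l : ℝ) + 1)) ^ 2 ≤ Lo 2 X Ω V := by
    have h1 : (l : ℝ) * Real.log 2 ≤ Real.log X := by
      rw [← Real.log_pow]
      refine Real.log_le_log (by positivity) (le_trans ?_ hnX)
      have h2 : 2 ^ l ≤ n := by
        rw [hl]
        exact Nat.pow_log_le_self 2 (by omega)
      exact_mod_cast h2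
    have h2 := Real.log_two_gt_d9
    have h3 : (0 : ℝ) ≤ l := Nat.cast_nonneg _
    have h4 : (l : ℝ) + 1 ≤ 4 * Real.log X + 4 := by nlinarith
    have h5 : ((V : ℝ) + 1) * ((l : ℝ) + 1) ≤ ((V : ℝ) + 2) * (4 * Real.log X + 4) :=
      mul_le_mul (by linarith) h4 (by positivity) (by positivity)
    unfold Lo
    calc (((V : ℝ) + 1) * ((l : ℝ) + 1)) ^ 2 ≤ (((V : ℝ) + 2) * (4 * Real.log X + 4)) ^ 2 :=
          pow_le_pow_left₀ (by positivity) h5 2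
      _ ≤ _ := pow_le_pow_right₀ (by linarith) (by omega)
  obtain ⟨κ, hκ⟩ : ∃ κ : ℝ, κ = 4 / (3 * ((D : ℝ) + 3)) := ⟨_, rfl⟩
  obtain ⟨N, hN⟩ : ∃ N, N = Nf X Ω V := ⟨_, rfl⟩
  obtain ⟨J, hJ⟩ : ∃ J : Finset (Fin 3 × Fin 3 × ℤ × ℤ × ℤ), J = Finset.univ ×ˢ Finset.univ ×ˢ
    Pool.Agent.H18.AB.sg ×ˢ Pool.Agent.H18.AB.sg ×ˢ Pool.Agent.H18.AB.sg := ⟨_, rfl⟩
  have hJc : J.card = 72 := by
    rw [hJ]
    simp only [Finset.card_product, Pool.Agent.H18.AB.sg_card, Finset.card_univ, Fintype.card_fin]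
  obtain ⟨EF, hEF⟩ : ∃ EF : Finset (ℕ × ℕ), EF = Finset.range (V + 1) ×ˢ Finset.range (V + 1) :=
    ⟨_, rfl⟩
  obtain ⟨PR, hPR⟩ : ∃ PR : Finset (ℕ × ℕ), PR = Finset.Icc 1 n ×ˢ Finset.Icc 1 n := ⟨_, rfl⟩
  obtain ⟨wt, hwt⟩ : ∃ wt : (Fin 3 × Fin 3 × ℤ × ℤ × ℤ) → (ℕ × ℕ × ℕ) → (ℕ × ℕ) → (ℕ × ℕ) → ℝ,
    wt = fun j m t q => if (D < t.1 ∧ D < t.2) ∧ (j.2.2.1 * (m.1 : ℤ)) * (q.1 : ℤ) ^ t.1 +
      (j.2.2.2.1 * (m.2.1 : ℤ)) * (q.2 : ℤ) ^ t.2 = j.2.2.2.2 * (m.2.2 : ℤ) then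
      Z * (1 / (pd m.1.primeFactors : ℝ) * (1 / (pd m.2.1.primeFactors : ℝ) *
        (1 / (pd m.2.2.primeFactors : ℝ)))) * (1 / ((q.1 : ℝ) * q.2) ^ κ) else 0 := ⟨_, rfl⟩
  have hwt0 : ∀ j m t q, 0 ≤ wt j m t q := by
    intro j m t q
    rw [hwt]
    dsimp only
    split_ifs
    · positivity
    · exact le_rfl
  obtain ⟨G, hG⟩ : ∃ G : ℝ, G = ((l : ℝ) + 1) ^ 2 * (4 * (Ch * X' ^ (10 * ε1))) := ⟨_, rfl⟩
  have hX'0 : 0 < X' := by linarith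
  have hG0 : 0 ≤ G := by rw [hG]; positivity
  have hin : ∀ j ∈ J, ∀ m ∈ N ×ˢ (N ×ˢ N), ∀ t ∈ EF, ∑ q ∈ PR, wt j m t q ≤
      Z * (1 / (pd m.1.primeFactors : ℝ) * (1 / (pd m.2.1.primeFactors : ℝ) *
        (1 / (pd m.2.2.primeFactors : ℝ)))) * G := by
    intro j hj m hm t ht
    rw [hJ] at hj
    simp only [Finset.mem_product, Finset.mem_univ, true_and] at hj
    rw [hN, Finset.mem_product, Finset.mem_product] at hm
    rw [hEF, Finset.mem_product, Finset.mem_range, Finset.mem_range] at ht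
    by_cases hD' : D < t.1 ∧ D < t.2
    · obtain ⟨a0, a1⟩ := cjg_log hX hm.1
      obtain ⟨b0, b1⟩ := cjg_log hX hm.2.1
      obtain ⟨c0, c1⟩ := cjg_log hX hm.2.2
      obtain ⟨sa, sa'⟩ := clj_sg hj.1 a0
      obtain ⟨sb, sb'⟩ := clj_sg hj.2.1 b0
      obtain ⟨sc, sc'⟩ := clj_sg hj.2.2 c0
      have ht1 : (t.1 : ℝ) ≤ X' ^ ε1 := by
        have h1 : (t.1 : ℝ) ≤ V := by exact_mod_cast Nat.lt_succ_iff.1 ht.1
        linarith
      have ht2 : (t.2 : ℝ) ≤ X' ^ ε1 := by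
        have h1 : (t.2 : ℝ) ≤ V := by exact_mod_cast Nat.lt_succ_iff.1 ht.2
        linarith
      have h1 := clj_pr D hCh hau hX'2 hn1 (hnX.trans hXX') hD'.1 hD'.2 ht1 ht2 sa sb sc
        (by rw [sa']; exact a1.trans hVL) (by rw [sb']; exact b1.trans hVL)
        (by rw [sc']; exact c1.trans hVL)
      rw [← hκ, ← hl, ← hG, ← hPR] at h1
      rw [hwt]
      simp only [hD', true_and]
      rw [← Finset.sum_filter, ← Finset.mul_sum]
      exact mul_le_mul_of_nonneg_left h1 (by positivity)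
    · have h1 : ∑ q ∈ PR, wt j m t q = 0 := by
        refine Finset.sum_eq_zero fun q _ => ?_
        rw [hwt]
        dsimp only
        rw [if_neg (fun h => hD' h.1)]
      rw [h1]
      positivity
  have hS := (hNSU X Ω V hX).2
  rw [← hN] at hS
  have hS0 : 0 ≤ ∑ m ∈ N, 1 / (pd m.primeFactors : ℝ) := Finset.sum_nonneg fun _ _ => by positivity
  have hL10 : 0 ≤ Lo 1 X Ω V := Pool.Agent.H18.AB.Lo_nonneg 1 Ω V hX
  have hsum : ∑ i ∈ J ×ˢ ((N ×ˢ (N ×ˢ N)) ×ˢ (EF ×ˢ PR)), wt i.1 i.2.1 i.2.2.1 i.2.2.2 ≤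
      288 * (Ch * K' ^ (10 * ε1)) * Z * X ^ (100 * ε) * Lo 11 X Ω V := by
    rw [Finset.sum_product]
    have h1 : ∀ j ∈ J, ∑ y ∈ (N ×ˢ (N ×ˢ N)) ×ˢ (EF ×ˢ PR),
        wt (j, y).1 (j, y).2.1 (j, y).2.2.1 (j, y).2.2.2 ≤
        ((V : ℝ) + 1) ^ 2 * (Z * Lo 3 X Ω V * G) := by
      intro j hj
      rw [Finset.sum_product]
      dsimp only
      have h2 : ∀ m ∈ N ×ˢ (N ×ˢ N), ∑ y ∈ EF ×ˢ PR, wt j m y.1 y.2 ≤
          (((V : ℝ) + 1) ^ 2 * (Z * G)) * (1 / (pd m.1.primeFactors : ℝ) *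
            (1 / (pd m.2.1.primeFactors : ℝ) * (1 / (pd m.2.2.primeFactors : ℝ)))) := by
        intro m hm
        rw [Finset.sum_product]
        dsimp only
        refine (Finset.sum_le_sum fun t ht => hin j hj m hm t ht).trans (le_of_eq ?_)
        rw [Finset.sum_const, hEF, Finset.card_product, Finset.card_range, nsmul_eq_mul]
        push_cast
        ring
      refine (Finset.sum_le_sum h2).trans ?_
      rw [← Finset.mul_sum, Finset.sum_product]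
      simp only [Finset.sum_product, ← Finset.mul_sum, ← Finset.sum_mul]
      have h3 : (∑ m ∈ N, 1 / (pd m.primeFactors : ℝ)) * ((∑ m ∈ N, 1 / (pd m.primeFactors : ℝ)) *
          ∑ m ∈ N, 1 / (pd m.primeFactors : ℝ)) ≤ Lo 3 X Ω V := by
        have h4 : Lo 3 X Ω V = Lo 1 X Ω V * (Lo 1 X Ω V * Lo 1 X Ω V) := by
          rw [Pool.Agent.H18.AB.Lo_mul, Pool.Agent.H18.AB.Lo_mul]
        rw [h4]
        exact mul_le_mul hS (mul_le_mul hS hS hS0 hL10) (by positivity) hL10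
      calc _ ≤ (((V : ℝ) + 1) ^ 2 * (Z * G)) * Lo 3 X Ω V :=
            mul_le_mul_of_nonneg_left h3 (by positivity)
        _ = _ := by ring
    refine (Finset.sum_le_sum h1).trans ?_
    rw [Finset.sum_const, hJc, nsmul_eq_mul]
    have h2 : Lo 3 X Ω V * (((V : ℝ) + 1) * ((l : ℝ) + 1)) ^ 2 ≤ Lo 11 X Ω V := by
      have h4 : Lo 5 X Ω V = Lo 3 X Ω V * Lo 2 X Ω V := by
        rw [Pool.Agent.H18.AB.Lo_mul]
      refine (mul_le_mul_of_nonneg_left hlLo (Pool.Agent.H18.AB.Lo_nonneg 3 Ω V hX)).trans ?_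
      rw [← h4]
      have hb := Pool.Agent.H18.AB.base_ge V hX
      unfold Lo
      exact pow_le_pow_right₀ (by linarith) (Nat.mul_le_mul_right _ (by norm_num))
    have h3 : X ^ (10 * ε1) ≤ X ^ (100 * ε) :=
      Real.rpow_le_rpow_of_exponent_le (by linarith) (by rw [hε1]; linarith)
    have h4 : X' ^ (10 * ε1) = K' ^ (10 * ε1) * X ^ (10 * ε1) := by
      rw [hX', Real.mul_rpow (by linarith) hX0.le]
    have hL11 : 0 ≤ Lo 11 X Ω V := Pool.Agent.H18.AB.Lo_nonneg 11 Ω V hX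
    calc ((72 : ℕ) : ℝ) * (((V : ℝ) + 1) ^ 2 * (Z * Lo 3 X Ω V * G))
        = 288 * (Ch * X' ^ (10 * ε1)) * Z *
          (Lo 3 X Ω V * (((V : ℝ) + 1) * ((l : ℝ) + 1)) ^ 2) := by
          rw [hG]; push_cast; ring
      _ ≤ 288 * (Ch * X' ^ (10 * ε1)) * Z * Lo 11 X Ω V :=
          mul_le_mul_of_nonneg_left h2 (by positivity)
      _ = 288 * (Ch * K' ^ (10 * ε1)) * Z * Lo 11 X Ω V * X ^ (10 * ε1) := by
          rw [h4]; ring
      _ ≤ 288 * (Ch * K' ^ (10 * ε1)) * Z * Lo 11 X Ω V * X ^ (100 * ε) :=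
          mul_le_mul_of_nonneg_left h3 (by positivity)
      _ = _ := by ring
  have hc := Pool.Agent.H18.AB.count {x | x ∈ Fw X Ω V ∧ PJ D Z x}
    (J ×ˢ ((N ×ˢ (N ×ˢ N)) ×ˢ (EF ×ˢ PR)))
    (fun i => Pool.Agent.H18.AB.psi i.1.1 i.1.2.1 i.1.2.2.1 i.1.2.2.2.1
      (i.2.1.1 * i.2.2.2.1 ^ i.2.2.1.1) (i.2.1.2.1 * i.2.2.2.2 ^ i.2.2.1.2))
    (fun i => wt i.1 i.2.1 i.2.2.1 i.2.2.2) (fun i _ => hwt0 _ _ _ _) ?_
  · exact ⟨hc.1, hc.2.trans hsum⟩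
  rintro x ⟨hxF, a, b, p, r, hab, hp, hr, hDa, hDb, hZx⟩
  have hA := hxF.1
  obtain ⟨c, hac, hbc⟩ := Pool.Agent.H13.PS.third a b
  obtain ⟨a1, a2, a3, a4, a5⟩ := clj_split hNSU hX hxF a hp (by omega)
  obtain ⟨b1, b2, b3, b4, b5⟩ := clj_split hNSU hX hxF b hr (by omega)
  have hcN := Pool.Agent.H18.AB.mem_Nf hNSU hX hxF (Pool.Agent.H18.AB.dvd_pr x c)
  obtain ⟨e, he⟩ : ∃ e, e = (x a).natAbs.factorization p := ⟨_, rfl⟩
  obtain ⟨f, hf⟩ : ∃ f, f = (x b).natAbs.factorization r := ⟨_, rfl⟩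
  obtain ⟨A, hAe⟩ : ∃ A, A = (x a).natAbs / p ^ e := ⟨_, rfl⟩
  obtain ⟨B, hBe⟩ : ∃ B, B = (x b).natAbs / r ^ f := ⟨_, rfl⟩
  rw [← he, ← hAe] at a1 a2 a5
  rw [← he] at a3 hDa
  rw [← hf, ← hBe] at b1 b2 b5
  rw [← hf] at b3 hDb
  rw [← hn] at a4 b4
  rw [← hN] at a1 b1 hcN
  refine ⟨((a, b, (x a).sign, (x b).sign, (-x c).sign), ((A, (B, (x c).natAbs)),
    ((e, f), (p, r)))), ?_, ?_, ?_⟩
  · simp only [hJ, hEF, hPR, Finset.mem_product, Finset.mem_univ, true_and, Finset.mem_range,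
      Finset.mem_Icc]
    exact ⟨⟨Pool.Agent.H18.AB.sign_mem (hA.1 a), Pool.Agent.H18.AB.sign_mem (hA.1 b),
      Pool.Agent.H18.AB.sign_mem (neg_ne_zero.2 (hA.1 c))⟩, ⟨a1, b1, hcN⟩,
      ⟨Nat.lt_succ_of_le a3, Nat.lt_succ_of_le b3⟩, ⟨hp.one_lt.le, a4⟩, hr.one_lt.le, b4⟩
  · rw [hwt]
    dsimp only
    have e1 : (x a).sign * (A : ℤ) * (p : ℤ) ^ e = x a := by
      have h1 : (A : ℤ) * (p : ℤ) ^ e = ((x a).natAbs : ℤ) := by exact_mod_cast a2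
      rw [mul_assoc, h1, Int.sign_mul_natAbs]
    have e2 : (x b).sign * (B : ℤ) * (r : ℤ) ^ f = x b := by
      have h1 : (B : ℤ) * (r : ℤ) ^ f = ((x b).natAbs : ℤ) := by exact_mod_cast b2
      rw [mul_assoc, h1, Int.sign_mul_natAbs]
    have e3 : (-x c).sign * ((x c).natAbs : ℤ) = -x c := by
      rw [← Int.natAbs_neg, Int.sign_mul_natAbs]
    have h3 := Pool.Agent.H18.AB.sum3 hA.2.2 hab hac hbc
    rw [if_pos ⟨⟨hDa, hDb⟩, by rw [e1, e2, e3]; omega⟩]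
    have hpd := clj_pd_prod hA hab hac hbc
    rw [a5, b5] at hpd
    rw [hpd, ← hκ] at hZx
    have hp0 : (0 : ℝ) < p := by exact_mod_cast hp.pos
    have hr0 : (0 : ℝ) < r := by exact_mod_cast hr.pos
    have hA0 : (0 : ℝ) < pd A.primeFactors := by exact_mod_cast Pool.Agent.H18.AB.pd_pf_pos _
    have hB0 : (0 : ℝ) < pd B.primeFactors := by exact_mod_cast Pool.Agent.H18.AB.pd_pf_pos _
    have hC0 : (0 : ℝ) < pd (x c).natAbs.primeFactors := by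
      exact_mod_cast Pool.Agent.H18.AB.pd_pf_pos _
    have hq : (0 : ℝ) < ((p : ℝ) * r) ^ κ := Real.rpow_pos_of_pos (by positivity) _
    push_cast at hZx
    have h4 : (pd A.primeFactors : ℝ) * (pd B.primeFactors * pd (x c).natAbs.primeFactors) *
        ((p : ℝ) * r) ^ κ ≤ Z := by
      have h5 : ((pd A.primeFactors : ℝ) * (pd B.primeFactors * pd (x c).natAbs.primeFactors) *
          ((p : ℝ) * r) ^ κ) * ((p : ℝ) * r) ≤ Z * ((p : ℝ) * r) := by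
        refine le_trans (le_of_eq ?_) hZx
        ring
      exact le_of_mul_le_mul_right h5 (by positivity)
    rw [one_div_mul_one_div, one_div_mul_one_div, mul_assoc, one_div_mul_one_div, mul_one_div,
      one_le_div₀ (by positivity)]
    exact h4
  · dsimp only
    rw [a2, b2]
    exact Pool.Agent.H18.AB.recon hA.2.2 hab

end Pool.Agent.H38.AG
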