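import Pool.Agent.H38.AG.Stmt
import Pool.Agent.H82.TG.Targets
import Pool.Agent.H38.PS.Final

/-!
# From the targets to the statement
-/

set_option autoImplicit false

open Pool.Agent.H38.RB Pool.Agent.H38.PS Pool.Agent.H82.RD Pool.Agent.H38.AB
open Pool.Agent.H38.AE.Statement Pool.Agent.H82.TG

namespace Pool.Agent.H38.AG

theorem abs_le_ht (x : Fin 3 → ℤ) (i : Fin 3) : |(x i : ℝ)| ≤ ht x := by
  have h0 : (x i).natAbs ≤ ht x := by
    unfold ht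
    fin_cases i
    · exact le_max_left _ _
    · exact (le_max_left _ _).trans (le_max_right _ _)
    · exact (le_max_right _ _).trans (le_max_right _ _)
  rw [← Int.cast_abs, Int.abs_eq_natAbs]
  exact_mod_cast h0

theorem exists_ht (x : Fin 3 → ℤ) : ∃ i, |(x i : ℝ)| = ht x := by
  have key : ∀ i, (x i).natAbs = ht x → |(x i : ℝ)| = ht x := fun i h => by
    rw [← h, ← Int.cast_abs, Int.abs_eq_natAbs]
    rfl
  rcases max_choice (x 0).natAbs (max (x 1).natAbs (x 2).natAbs) with h | h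
  · exact ⟨0, key 0 h.symm⟩
  · rcases max_choice (x 1).natAbs (x 2).natAbs with h' | h'
    · exact ⟨1, key 1 (by unfold ht; rw [h, h'])⟩
    · exact ⟨2, key 2 (by unfold ht; rw [h, h'])⟩

theorem violators_eq (M X : ℝ) : Violators M X =
    {x | Adm x ∧ (pd (pr x).primeFactors : ℝ) ≤ X ∧
      (pd (pr x).primeFactors : ℝ) ^ M < (ht x : ℝ)} := by
  ext x
  simp only [Violators, Set.mem_setOf_eq, Pool.Agent.H38.PS.adm_iff,
    Pool.Agent.H38.PS.radical_eq]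
  refine and_congr_right fun _ => and_congr_right fun _ => ⟨?_, fun h => ?_⟩
  · rintro ⟨i, hi⟩
    exact hi.trans_le (abs_le_ht x i)
  · obtain ⟨i, hi⟩ := exists_ht x
    exact ⟨i, by rwa [hi]⟩

/-- the largest entry is at least the cube root of the radical -/
theorem cube_root_le (x : Fin 3 → ℤ) (hx : Admissible x) :
    ∃ i, (radical (∏ i, x i) : ℝ) ^ (1 / 3 : ℝ) ≤ |(x i : ℝ)| := by
  obtain ⟨i, hi⟩ := exists_ht x
  refine ⟨i, ?_⟩
  have h0 : (0 : ℝ) ≤ ht x := Nat.cast_nonneg _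
  have hne : (∏ i, x i) ≠ 0 := Finset.prod_ne_zero_iff.2 fun i _ => hx.1 i
  have h1 : radical (∏ i, x i) ≤ (∏ i, x i).natAbs :=
    Nat.le_of_dvd (Int.natAbs_pos.2 hne) (Nat.prod_primeFactors_dvd _)
  have h2 : ((∏ i, x i).natAbs : ℝ) ≤ (ht x : ℝ) ^ 3 := by
    have h3 : ((∏ i, x i).natAbs : ℝ) = ∏ i, |(x i : ℝ)| := by
      rw [Nat.cast_natAbs, Int.cast_abs, Int.cast_prod, Finset.abs_prod]
    rw [h3]
    calc ∏ i, |(x i : ℝ)| ≤ ∏ _i : Fin 3, (ht x : ℝ) :=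
          Finset.prod_le_prod (fun i _ => abs_nonneg _) fun i _ => abs_le_ht x i
      _ = (ht x : ℝ) ^ 3 := by simp
  have h4 : (radical (∏ i, x i) : ℝ) ≤ (ht x : ℝ) ^ 3 :=
    le_trans (by exact_mod_cast h1) h2
  rw [hi]
  calc (radical (∏ i, x i) : ℝ) ^ (1 / 3 : ℝ) ≤ ((ht x : ℝ) ^ 3) ^ (1 / 3 : ℝ) :=
        Real.rpow_le_rpow (Nat.cast_nonneg _) h4 (by norm_num)
    _ = ht x := by
        rw [← Real.rpow_natCast, ← Real.rpow_mul h0]
        norm_num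

theorem glue (hG : T_GPL) (hF : T_TFI) (hL : T_LOWC) :
    (∀ x : Fin 3 → ℤ, Admissible x →
      ∃ i, (radical (∏ i, x i) : ℝ) ^ (1 / 3 : ℝ) ≤ |(x i : ℝ)|) ∧
    (∀ ε : ℝ, 0 < ε → ∃ δ C : ℝ, 0 < δ ∧ 0 < C ∧
      (∀ X : ℝ, 1 ≤ X → (Violators (1 / 3 + ε) X).Finite ∧
        ((Violators (1 / 3 + ε) X).ncard : ℝ) ≤ C * X ^ (2 / 3 - δ)) ∧
      ∀ X : ℝ, 2 ≤ X →
        ((Violators (1 / 3 + ε) X).ncard : ℝ) ≤ C * X ^ (-δ) * (All X).ncard) ∧
    (∃ c : ℝ, 0 < c ∧ ∀ X : ℝ, 2 ≤ X → (All X).Finite ∧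
      c * X ^ (2 / 3 : ℝ) ≤ ((All X).ncard : ℝ)) := by
  have hU : T_FALL := hF
  obtain ⟨c, hc, hA⟩ := (final hU hL).2
  obtain ⟨C', -, hfin⟩ := hF 1 one_pos
  refine ⟨cube_root_le, fun ε hε => ?_, ⟨c, hc, fun X hX => ⟨?_, hA X hX⟩⟩⟩
  · obtain ⟨δ, C, hδ, hC, h⟩ := hG ε hε
    have hV : ∀ X : ℝ, 1 ≤ X → (Violators (1 / 3 + ε) X).Finite ∧
        ((Violators (1 / 3 + ε) X).ncard : ℝ) ≤ C * X ^ (2 / 3 - δ) := fun X hX => by
      rw [violators_eq]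
      exact h X hX
    refine ⟨δ, max C (C / c), hδ, lt_max_of_lt_left hC, fun X hX => ⟨(hV X hX).1,
      (hV X hX).2.trans (mul_le_mul_of_nonneg_right (le_max_left _ _) (by positivity))⟩,
      fun X hX => ?_⟩
    have hX0 : 0 < X := by linarith
    refine (hV X (by linarith)).2.trans ?_
    have h2 : 0 ≤ C / c * X ^ (-δ) := by positivity
    calc C * X ^ (2 / 3 - δ) = C / c * X ^ (-δ) * (c * X ^ (2 / 3 : ℝ)) := by
          rw [sub_eq_add_neg, Real.rpow_add hX0]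
          field_simp
      _ ≤ C / c * X ^ (-δ) * (All X).ncard := mul_le_mul_of_nonneg_left (hA X hX) h2
      _ ≤ max C (C / c) * X ^ (-δ) * (All X).ncard := by
          gcongr
          exact le_max_right _ _
  · unfold All
    rw [Pool.Agent.H38.PS.set_eq]
    exact (hfin X (by linarith)).1

end Pool.Agent.H38.AG
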