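import Pool.Agent.H38.RD.SMH
import Pool.Agent.H38.AG.Targets

/-!
# RDH: the data of the machine for exponent vectors modulo a space of relations
-/

set_option autoImplicit false

namespace Pool.Agent.H38.AG

open Pool.Agent.H82.RD Pool.Agent.H38.RD Pool.Agent.H38.AB

/-! ## linear independence over `ℚ_[q]` -/

theorem exists_dual {ι : Type} [Fintype ι] [DecidableEq ι] {m : ℕ} (b : Fin m → ι → ℚ)
    (h : LinearIndependent ℚ b) :
    ∃ G : Fin m → ι → ℚ, ∀ i j, ∑ l, G i l * b j l = if i = j then 1 else 0 := by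
  have hinj : LinearMap.ker (Fintype.linearCombination ℚ b) = ⊥ :=
    LinearMap.ker_eq_bot.2 (linearIndependent_iff_injective_fintypeLinearCombination.1 h)
  obtain ⟨g, hg⟩ := LinearMap.exists_leftInverse_of_injective _ hinj
  refine ⟨fun i l => g (Pi.single l 1) i, fun i j => ?_⟩
  have h1 : g (b j) = Pi.single j 1 := by
    have h2 := LinearMap.congr_fun hg (Pi.single j 1)
    rw [LinearMap.comp_apply, LinearMap.id_apply] at h2
    rw [← h2]
    congr 1
    rw [Fintype.linearCombination_apply_single, one_smul]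
  have h3 : g (b j) = ∑ l, b j l • g (Pi.single l 1) := by
    conv_lhs => rw [← Finset.univ_sum_single (b j)]
    rw [map_sum]
    refine Finset.sum_congr rfl fun l _ => ?_
    rw [← map_smul]
    congr 1
    rw [← Pi.single_smul, smul_eq_mul, mul_one]
  have h4 := congrFun (h3.symm.trans h1) i
  rw [Finset.sum_apply, Pi.single_apply] at h4
  rw [← h4]
  exact Finset.sum_congr rfl fun l _ => by rw [Pi.smul_apply, smul_eq_mul, mul_comm]

theorem li_cast (q : ℕ) [Fact q.Prime] {ι : Type} [Fintype ι] [DecidableEq ι] {m : ℕ}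
    (b : Fin m → ι → ℚ) (h : LinearIndependent ℚ b) :
    LinearIndependent ℚ_[q] (fun i => fun l => ((b i l : ℚ) : ℚ_[q])) := by
  obtain ⟨G, hG⟩ := exists_dual b h
  rw [Fintype.linearIndependent_iff]
  intro c hc i
  have h1 : ∀ l, ∑ j, c j * ((b j l : ℚ) : ℚ_[q]) = 0 := by
    intro l
    have := congrFun hc l
    rw [Finset.sum_apply] at this
    simpa using this
  have h2 : ∑ l, ((G i l : ℚ) : ℚ_[q]) * ∑ j, c j * ((b j l : ℚ) : ℚ_[q]) = 0 := by
    refine Finset.sum_eq_zero fun l _ => ?_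
    rw [h1 l, mul_zero]
  have h3 : ∑ l, ((G i l : ℚ) : ℚ_[q]) * ∑ j, c j * ((b j l : ℚ) : ℚ_[q]) =
      ∑ j, c j * (((∑ l, G i l * b j l : ℚ)) : ℚ_[q]) := by
    simp only [Finset.mul_sum, Rat.cast_sum, Rat.cast_mul]
    rw [Finset.sum_comm]
    exact Finset.sum_congr rfl fun j _ => Finset.sum_congr rfl fun l _ => by ring
  rw [h3] at h2
  rw [Finset.sum_eq_single i] at h2
  · rw [hG i i, if_pos rfl] at h2
    simpa using h2
  · intro j _ hji
    rw [hG i j, if_neg (Ne.symm hji)]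
    simp
  · intro h
    exact absurd (Finset.mem_univ i) h

/-! ## products of pairwise coprime numbers -/

theorem prod_pow_inj {ι : Type} [Fintype ι] [DecidableEq ι] (l k k' : ι → ℕ)
    (h2 : ∀ i, 2 ≤ l i) (hc : ∀ i j, i ≠ j → (l i).Coprime (l j))
    (h : ∏ i, l i ^ k i = ∏ i, l i ^ k' i) : k = k' := by
  have key : ∀ (i : ι) (k : ι → ℕ) (p : ℕ), p.Prime → p ∣ l i →
      (∏ j, l j ^ k j).factorization p = k i * (l i).factorization p := by
    intro i k p hp hpi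
    rw [Nat.factorization_prod fun j _ => pow_ne_zero _ (by have := h2 j; omega),
      Finsupp.finsetSum_apply, Finset.sum_eq_single i]
    · rw [Nat.factorization_pow, Finsupp.smul_apply, smul_eq_mul]
    · intro j _ hji
      rw [Nat.factorization_pow, Finsupp.smul_apply, smul_eq_mul]
      have : (l j).factorization p = 0 := by
        rw [Nat.factorization_eq_zero_iff]
        right; left
        intro hpj
        have := Nat.dvd_gcd hpj hpi
        rw [Nat.Coprime.gcd_eq_one (hc j i hji)] at this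
        exact hp.one_lt.ne' (Nat.dvd_one.1 this)
      rw [this, mul_zero]
    · intro h
      exact absurd (Finset.mem_univ i) h
  funext i
  obtain ⟨p, hp, hpi⟩ := Nat.exists_prime_and_dvd (n := l i) (by have := h2 i; omega)
  have h0 := congrArg (fun t : ℕ => t.factorization p) h
  beta_reduce at h0
  rw [key i k p hp hpi, key i k' p hp hpi] at h0
  have h1 : 0 < (l i).factorization p :=
    hp.factorization_pos_of_dvd (by have := h2 i; omega) hpi
  exact Nat.eq_of_mul_eq_mul_right h1 h0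

/-! ## a basis consisting of relations -/

theorem exists_rel_basis (q e Bd : ℕ) (J : Finset ℕ) : ∃ (d : ℕ) (V : Fin d → ℕ → ℤ),
    (∀ i, Rl q e Bd J (V i)) ∧
    LinearIndependent ℚ (fun i => fun l : J => ((V i l : ℤ) : ℚ)) ∧
    ∀ v ∈ Lam q e Bd J, v ∈ Submodule.span ℚ (Set.range fun i => fun l : J => ((V i l : ℤ) : ℚ)) := by
  obtain ⟨b, hb1, hb2, hb3⟩ := exists_linearIndependent ℚ
    {v : J → ℚ | ∃ V : ℕ → ℤ, Rl q e Bd J V ∧ v = fun u : J => ((V u : ℤ) : ℚ)}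
  have hfin : b.Finite := hb3.setFinite
  have : Fintype b := hfin.fintype
  have hch : ∀ v : b, ∃ V : ℕ → ℤ, Rl q e Bd J V ∧ (v : J → ℚ) = fun u : J => ((V u : ℤ) : ℚ) :=
    fun v => hb1 v.2
  choose V hV1 hV2 using hch
  refine ⟨Fintype.card b, fun i => V ((Fintype.equivFin b).symm i), fun i => hV1 _, ?_, ?_⟩
  · have h1 : (fun i : Fin (Fintype.card b) => fun l : J =>
        ((V ((Fintype.equivFin b).symm i) l : ℤ) : ℚ)) =
        (fun v : b => (v : J → ℚ)) ∘ (Fintype.equivFin b).symm := by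
      funext i
      rw [Function.comp_apply, hV2]
    rw [h1]
    exact hb3.comp _ (Fintype.equivFin b).symm.injective
  · intro v hv
    have h2 : v ∈ Submodule.span ℚ b := by
      rw [hb2]
      exact hv
    refine Submodule.span_mono ?_ h2
    intro w hw
    refine ⟨Fintype.equivFin b ⟨w, hw⟩, ?_⟩
    simp only [Equiv.symm_apply_apply]
    exact (hV2 ⟨w, hw⟩).symm

theorem toNat_cast_sub (q : ℕ) [Fact q.Prime] (v : ℤ) :
    ((v.toNat : ℕ) : ℤ_[q]) - (((-v).toNat : ℕ) : ℤ_[q]) = (v : ℤ_[q]) := by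
  have h := Int.toNat_sub_toNat_neg v
  have h2 := congrArg (fun t : ℤ => (t : ℤ_[q])) h
  push_cast at h2
  simpa using h2

theorem pf_RDH (hLDL : T_LDL) (hLPR : T_LPR) (hLRL : T_LRL) (hPIV : T_PIV) : T_RDH := by
  intro q hq e Bd T c J Q hQJ hT hBd hJ hJc
  classical
  obtain ⟨ζ0, hζ0⟩ := exists_log hLDL q e hq.1
  obtain ⟨θ, hθ⟩ := exists_theta q
  obtain ⟨d, V, hV, hli, hspan⟩ := exists_rel_basis q e Bd J
  obtain ⟨P, Δ, a, C, hPinj, hΔ0, hΔB, haB, haP, hC⟩ :=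
    hPIV q J d Bd (fun i l => V i l) hli (fun i l => (hV i).1 l)
  -- numbers
  obtain ⟨cc, hcc⟩ : ∃ cc : Fin d → J → ℤ, cc = fun j (l : J) => ∑ i, a j i * V i l := ⟨_, rfl⟩
  have hccP : ∀ j j', cc j (P j') = if j = j' then Δ else 0 := by
    intro j j'
    rw [hcc]
    exact haP j j'
  have hccC : ∀ j l, (Δ : ℤ_[q]) * C j l = (cc j l : ℤ_[q]) := by
    intro j l
    rw [hcc]
    exact hC j l
  have hdJ : d ≤ J.card := by
    have := Fintype.card_le_of_injective P hPinj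
    rwa [Fintype.card_fin, Fintype.card_coe] at this
  obtain ⟨M, hM⟩ : ∃ M : ℕ, M = J.card.factorial * Bd ^ J.card := ⟨_, rfl⟩
  have hdM : d.factorial * Bd ^ d ≤ M := by
    rw [hM]
    exact Nat.mul_le_mul (Nat.factorial_le hdJ) (Nat.pow_le_pow_right hBd hdJ)
  have hccB : ∀ j l, |cc j l| ≤ (M : ℤ) := by
    intro j l
    rw [hcc]
    exact (haB j l).trans (by exact_mod_cast hdM)
  obtain ⟨n, hn⟩ : ∃ n : ℕ, n = Δ.natAbs := ⟨_, rfl⟩
  have hn1 : 1 ≤ n := by
    rw [hn]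
    exact Int.natAbs_pos.2 hΔ0
  have hnM : n ≤ M := by
    have h1 : |Δ| ≤ (M : ℤ) := hΔB.trans (by exact_mod_cast hdM)
    rw [Int.abs_eq_natAbs] at h1
    rw [hn]
    exact_mod_cast h1
  obtain ⟨sg, hsg1, hsg2, hsg3⟩ : ∃ s : ℤ, s * s = 1 ∧ |s| = 1 ∧ (n : ℤ) = s * Δ := by
    rw [hn]
    rcases Int.natAbs_eq Δ with h | h
    · exact ⟨1, by norm_num, by norm_num, by rw [one_mul]; exact h.symm⟩
    · exact ⟨-1, by norm_num, by norm_num, by omega⟩
  obtain ⟨κ0, hκ0⟩ : ∃ κ0 : ℕ, κ0 = padicValNat q n := ⟨_, rfl⟩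
  have hqκ : q ^ κ0 ≤ M := by
    rw [hκ0]
    exact (Nat.le_of_dvd hn1 pow_padicValNat_dvd).trans hnM
  obtain ⟨u, hu⟩ := exists_mul_eq_pow q n κ0 hn1 hκ0.ge
  have hnΔ : (n : ℤ_[q]) = (sg : ℤ_[q]) * (Δ : ℤ_[q]) := by
    have h := congrArg (fun t : ℤ => (t : ℤ_[q])) hsg3
    simpa using h
  -- the relations in `ℤ_[q]`
  have hrel : ∀ i, (q : ℤ_[q]) ^ (e - 3) ∣ ∑ l : J, (V i l : ℤ_[q]) * (ζ0 l : ℤ_[q]) := by
    intro i
    have h1 := hLRL q e ζ0 ℕ J id (fun u => (-V i u).toNat) (fun u => (V i u).toNat) hq.1 hζ0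
      (fun p hp => (hJ p hp).2) (hV i).2
    have h2 := cast_modEq q h1
    push_cast at h2
    simp only [id] at h2
    rw [← Finset.sum_sub_distrib] at h2
    have h3 : ∑ l : J, (V i l : ℤ_[q]) * (ζ0 l : ℤ_[q]) =
        ∑ p ∈ J, ((((V i p).toNat : ℕ) : ℤ_[q]) * (ζ0 p : ℤ_[q]) -
          (((-V i p).toNat : ℕ) : ℤ_[q]) * (ζ0 p : ℤ_[q])) := by
      rw [Finset.sum_coe_sort J (fun p => (V i p : ℤ_[q]) * (ζ0 p : ℤ_[q]))]
      refine Finset.sum_congr rfl fun p _ => ?_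
      rw [← sub_mul, toNat_cast_sub]
    rw [h3]
    exact h2
  have hrelc : ∀ j, (q : ℤ_[q]) ^ (e - 3) ∣ ∑ l : J, (cc j l : ℤ_[q]) * (ζ0 l : ℤ_[q]) := by
    intro j
    have h1 : ∑ l : J, (cc j l : ℤ_[q]) * (ζ0 l : ℤ_[q]) =
        ∑ i, (a j i : ℤ_[q]) * ∑ l : J, (V i l : ℤ_[q]) * (ζ0 l : ℤ_[q]) := by
      rw [hcc]
      simp only [Finset.mul_sum, Int.cast_sum, Int.cast_mul, Finset.sum_mul]
      rw [Finset.sum_comm]
      exact Finset.sum_congr rfl fun i _ => Finset.sum_congr rfl fun l _ => by ring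
    rw [h1]
    exact Finset.dvd_sum fun i _ => Dvd.dvd.mul_left (hrel i) _
  -- the coordinates
  obtain ⟨Co, hCo⟩ : ∃ Co : Finset J, Co = Finset.univ \ Finset.univ.image P := ⟨_, rfl⟩
  obtain ⟨L, hL⟩ : ∃ L : Fin Co.card → J, L = fun j => (Co.equivFin.symm j : J) := ⟨_, rfl⟩
  have hLsum : ∀ f : J → ℤ_[q], ∑ p ∈ Co, f p = ∑ j, f (L j) := by
    intro f
    rw [← Finset.sum_coe_sort Co f, ← Equiv.sum_comp Co.equivFin.symm, hL]
  have hUsum : ∀ f : J → ℤ_[q], ∑ p, f p = ∑ p ∈ Co, f p + ∑ i, f (P i) := by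
    intro f
    rw [hCo, ← Finset.sum_sdiff (Finset.subset_univ (Finset.univ.image P)),
      Finset.sum_image fun i _ j _ h => hPinj h]
  -- extension of exponent vectors
  obtain ⟨kk, hkk⟩ : ∃ kk : (Q → ℕ) → ℕ → ℕ, kk = fun k p =>
      if h : p ∈ Q then k ⟨p, h⟩ else 0 := ⟨_, rfl⟩
  have hkkQ : ∀ (k : Q → ℕ) (p : Q), kk k p = k p := by
    intro k p
    rw [hkk]
    beta_reduce
    rw [dif_pos p.2]
  have hKaq : ∀ k ∈ Kaq q T c Q, (∀ p, k p ≤ T) ∧ (∏ p : Q, (p : ℕ) ^ k p) % qh q = c := by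
    intro k hk
    rw [Kaq, Finset.mem_filter, Fintype.mem_piFinset] at hk
    refine ⟨fun i => ?_, hk.2⟩
    have := hk.1 i
    rw [Finset.mem_range] at this
    omega
  have hkkT : ∀ k ∈ Kaq q T c Q, ∀ p, kk k p ≤ T := by
    intro k hk p
    rw [hkk]
    beta_reduce
    split_ifs with h
    · exact (hKaq k hk).1 _
    · exact Nat.zero_le _
  obtain ⟨w, hw⟩ : ∃ w : (Q → ℕ) → J → ℤ_[q], w = fun k (l : J) =>
      (kk k l : ℤ_[q]) - ∑ j, (kk k (P j) : ℤ_[q]) * C j l := ⟨_, rfl⟩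
  obtain ⟨nu, hnu⟩ : ∃ nu : (Q → ℕ) → J → ℤ, nu = fun k (l : J) =>
      (n : ℤ) * (kk k l : ℤ) - ∑ j, (kk k (P j) : ℤ) * (sg * cc j l) := ⟨_, rfl⟩
  -- the kernel of the coordinate map
  obtain ⟨ex, hex⟩ : ∃ ex : (Q → ℚ_[q]) → J → ℚ_[q], ex = fun (k : Q → ℚ_[q]) (l : J) =>
      if h : (l : ℕ) ∈ Q then k ⟨l, h⟩ else 0 := ⟨_, rfl⟩
  have hexadd : ∀ k k', ex (k + k') = ex k + ex k' := by
    intro k k'
    funext l
    rw [hex]
    simp only [Pi.add_apply]
    split_ifs <;> simp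
  have hexsmul : ∀ (t : ℚ_[q]) k, ex (t • k) = t • ex k := by
    intro t k
    funext l
    rw [hex]
    simp only [Pi.smul_apply]
    split_ifs <;> simp
  obtain ⟨φ, hφ⟩ : ∃ φ : (Q → ℚ_[q]) →ₗ[ℚ_[q]] (Fin Co.card → ℚ_[q]), ∀ k i, φ k i =
      ex k (L i) - ∑ j, ex k (P j) * ((C j (L i) : ℤ_[q]) : ℚ_[q]) := by
    refine ⟨{ toFun := fun k i => ex k (L i) -
        ∑ j, ex k (P j) * ((C j (L i) : ℤ_[q]) : ℚ_[q])
              map_add' := ?_
              map_smul' := ?_ }, fun k i => rfl⟩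
    · intro k k'
      funext i
      simp only [hexadd, Pi.add_apply, add_mul, Finset.sum_add_distrib]
      ring
    · intro t k
      funext i
      simp only [hexsmul, Pi.smul_apply, smul_eq_mul, RingHom.id_apply, mul_sub, Finset.mul_sum,
        mul_assoc]
  have hφker : DQ q e Bd J Q ≤ Module.finrank ℚ_[q] (LinearMap.ker φ) := by
    rw [DQ, DD]
    -- the vectors of `Λ` are determined by their pivot coordinates
    have hpiv : ∀ v ∈ Lam q e Bd J, ∀ l, (Δ : ℚ) * v l = ∑ j, v (P j) * (cc j l : ℚ) := by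
      have hUA : ∀ i i', ∑ j, (V i (P j) : ℚ) * (a j i' : ℚ) = if i = i' then (Δ : ℚ) else 0 := by
        have hΔQ : (Δ : ℚ) ≠ 0 := by exact_mod_cast hΔ0
        have h1 : (Matrix.of fun j i => (Δ : ℚ)⁻¹ * (a j i : ℚ)) *
            (Matrix.of fun i j => (V i (P j) : ℚ)) = (1 : Matrix (Fin d) (Fin d) ℚ) := by
          ext j j'
          rw [Matrix.mul_apply, Matrix.one_apply]
          simp only [Matrix.of_apply]
          have h2 := congrArg (fun t : ℤ => (t : ℚ)) (haP j j')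
          simp only [Int.cast_sum, Int.cast_mul] at h2
          simp only [mul_assoc]
          rw [← Finset.mul_sum, h2]
          split_ifs
          · exact inv_mul_cancel₀ hΔQ
          · simp
        have h3 := mul_eq_one_comm.1 h1
        intro i i'
        have h4 := congrFun (congrFun h3 i) i'
        rw [Matrix.mul_apply, Matrix.one_apply] at h4
        simp only [Matrix.of_apply] at h4
        have h5 : ∑ j, (V i (P j) : ℚ) * (a j i' : ℚ) =
            (Δ : ℚ) * ∑ j, (V i (P j) : ℚ) * ((Δ : ℚ)⁻¹ * (a j i' : ℚ)) := by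
          rw [Finset.mul_sum]
          refine Finset.sum_congr rfl fun j _ => ?_
          field_simp
        rw [h5, h4]
        split_ifs <;> simp
      intro v hv
      refine Submodule.span_induction (p := fun v _ => ∀ l, (Δ : ℚ) * v l =
        ∑ j, v (P j) * (cc j l : ℚ)) ?_ ?_ ?_ ?_ (hspan v hv)
      · rintro _ ⟨i, rfl⟩ l
        beta_reduce
        rw [hcc]
        simp only [Int.cast_sum, Int.cast_mul, Finset.mul_sum]
        rw [Finset.sum_comm]
        have h1 : ∀ i' ∈ (Finset.univ : Finset (Fin d)),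
            ∑ j, (V i (P j) : ℚ) * ((a j i' : ℚ) * (V i' l : ℚ)) =
            (if i = i' then (Δ : ℚ) else 0) * (V i' l : ℚ) := by
          intro i' _
          rw [← hUA i i', Finset.sum_mul]
          exact Finset.sum_congr rfl fun j _ => by ring
        rw [Finset.sum_congr rfl h1, Finset.sum_eq_single i]
        · rw [if_pos rfl]
        · intro i' _ hi'
          rw [if_neg (Ne.symm hi'), zero_mul]
        · intro h
          exact absurd (Finset.mem_univ i) h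
      · intro l
        simp
      · intro v v' _ _ h h' l
        simp only [Pi.add_apply, mul_add, add_mul, Finset.sum_add_distrib, h l, h' l]
      · intro t v _ h l
        simp only [Pi.smul_apply, smul_eq_mul]
        rw [mul_left_comm, h l, Finset.mul_sum]
        exact Finset.sum_congr rfl fun j _ => by ring
    obtain ⟨N, hN⟩ : ∃ N : Submodule ℚ (J → ℚ),
      N = Lam q e Bd J ⊓ sp0 (Finset.univ.filter fun u : J => (u : ℕ) ∈ Q) := ⟨_, rfl⟩
    rw [← hN]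
    obtain ⟨b, hb⟩ : ∃ b : Fin (Module.finrank ℚ N) → N, LinearIndependent ℚ b :=
      ⟨_, (Module.finBasis ℚ N).linearIndependent⟩
    have hbv : LinearIndependent ℚ (fun i => (b i : J → ℚ)) :=
      hb.map' N.subtype (Submodule.ker_subtype N)
    have hcv := li_cast q (fun i => (b i : J → ℚ)) hbv
    have hbN : ∀ i, (b i : J → ℚ) ∈ Lam q e Bd J ∧ ∀ l : J, (l : ℕ) ∉ Q → (b i : J → ℚ) l = 0 := by
      intro i
      have h1 : (b i : J → ℚ) ∈ Lam q e Bd J ⊓
          sp0 (Finset.univ.filter fun u : J => (u : ℕ) ∈ Q) := by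
        have h2 := (b i).2
        exact hN.le h2
      rw [Submodule.mem_inf] at h1
      refine ⟨h1.1, fun l hl => h1.2 l ?_⟩
      rw [Finset.mem_filter]
      exact fun h => hl h.2
    obtain ⟨exL, hexL⟩ : ∃ exL : (Q → ℚ_[q]) →ₗ[ℚ_[q]] (J → ℚ_[q]), ∀ k, exL k = ex k :=
      ⟨{ toFun := ex, map_add' := hexadd, map_smul' := hexsmul }, fun k => rfl⟩
    obtain ⟨rv, hrv⟩ : ∃ rv : Fin (Module.finrank ℚ N) → Q → ℚ_[q], rv = fun i (p : Q) =>
        (((b i : J → ℚ) ⟨p, hQJ p.2⟩ : ℚ) : ℚ_[q]) := ⟨_, rfl⟩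
    have hexrv : ∀ i, ex (rv i) = fun l => (((b i : J → ℚ) l : ℚ) : ℚ_[q]) := by
      intro i
      funext l
      rw [hex, hrv]
      beta_reduce
      split_ifs with h
      · rfl
      · rw [(hbN i).2 l h]
        simp
    have hrvker : ∀ i, rv i ∈ LinearMap.ker φ := by
      intro i
      rw [LinearMap.mem_ker]
      funext t
      rw [hφ, hexrv, Pi.zero_apply]
      have h1 := hpiv _ (hbN i).1 (L t)
      have h2 := congrArg (fun t : ℚ => (t : ℚ_[q])) h1
      simp only [Rat.cast_mul, Rat.cast_sum, Rat.cast_intCast] at h2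
      have hΔq : (Δ : ℚ_[q]) ≠ 0 := by exact_mod_cast hΔ0
      have h3 : ∀ j, (cc j (L t) : ℚ_[q]) = (Δ : ℚ_[q]) * ((C j (L t) : ℤ_[q]) : ℚ_[q]) := by
        intro j
        have h4 := congrArg (fun t : ℤ_[q] => (t : ℚ_[q])) (hccC j (L t))
        simp only [PadicInt.coe_mul, PadicInt.coe_intCast] at h4
        exact h4.symm
      have h5 : (Δ : ℚ_[q]) * ((((b i : J → ℚ) (L t) : ℚ) : ℚ_[q]) -
          ∑ j, (((b i : J → ℚ) (P j) : ℚ) : ℚ_[q]) * ((C j (L t) : ℤ_[q]) : ℚ_[q])) = 0 := by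
        rw [mul_sub, h2, Finset.mul_sum, sub_eq_zero]
        refine Finset.sum_congr rfl fun j _ => ?_
        rw [h3]
        ring
      exact (mul_eq_zero.1 h5).resolve_left hΔq
    have hrvli : LinearIndependent ℚ_[q] rv := by
      refine LinearIndependent.of_comp exL ?_
      have : (exL ∘ rv) = fun i => fun l => (((b i : J → ℚ) l : ℚ) : ℚ_[q]) := by
        funext i
        rw [Function.comp_apply, hexL, hexrv]
      rw [this]
      exact hcv
    have hkv : LinearIndependent ℚ_[q]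
        (fun i => (⟨rv i, hrvker i⟩ : LinearMap.ker φ)) :=
      LinearIndependent.of_comp (LinearMap.ker φ).subtype hrvli
    have := hkv.fintype_card_le_finrank
    rwa [Fintype.card_fin] at this
  refine ⟨Co.card, κ0 + 1, fun k i => w k (L i), fun _ => n, fun k i => nu k (L i),
    fun i => θ * (q : ℤ_[q]) ^ κ0 * (ζ0 (L i) : ℤ_[q]), LinearMap.range φ, ?_,
    ⟨?_, ?_, ?_, ?_, ?_, ?_, ?_, ?_⟩, ?_, ?_⟩
  · rw [← hM, pow_succ, mul_comm]
    exact Nat.mul_le_mul_left _ hqκ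
  · intro k hk
    obtain ⟨hk1, -⟩ := hKaq k hk
    have hpos : ∀ p : Q, 0 < (p : ℕ) := fun p => by
      have := (hJ p (hQJ p.2)).1
      omega
    constructor
    · exact Nat.succ_le_iff.2 (Finset.prod_pos fun p _ => pow_pos (hpos p) _)
    · show ∏ p : Q, (p : ℕ) ^ k p ≤ (∏ p ∈ Q, p) ^ T
      rw [← Finset.prod_coe_sort Q (fun p => p), ← Finset.prod_pow]
      exact Finset.prod_le_prod' fun p _ => Nat.pow_le_pow_right (hpos p) (hk1 p)
  · intro k _ k' _ h
    exact prod_pow_inj (fun p : Q => (p : ℕ)) k k' (fun p => (hJ p (hQJ p.2)).1)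
      (fun p p' hpp => hJc p (hQJ p.2) p' (hQJ p'.2) fun h => hpp (Subtype.ext h)) h
  · intro k _
    refine ⟨hn1, hnM.trans ?_⟩
    rw [← hM]
    calc M = 1 * 1 * M := by ring
      _ ≤ (J.card + 1) * T * M := Nat.mul_le_mul_right _ (Nat.mul_le_mul (by omega) hT)
  · intro k hk i
    have hT' := hkkT k hk
    show |nu k (L i)| ≤ _
    rw [hnu, ← hM]
    have e1 : |(n : ℤ) * (kk k (L i) : ℤ)| ≤ (M : ℤ) * T := by
      rw [abs_mul, Nat.abs_cast, Nat.abs_cast]
      exact mul_le_mul (by exact_mod_cast hnM) (by exact_mod_cast hT' _) (by positivity)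
        (by positivity)
    have e2 : ∀ j ∈ (Finset.univ : Finset (Fin d)),
        |(kk k (P j) : ℤ) * (sg * cc j (L i))| ≤ (M : ℤ) * T := by
      intro j _
      rw [abs_mul, abs_mul, hsg2, one_mul, Nat.abs_cast, mul_comm]
      exact mul_le_mul (hccB _ _) (by exact_mod_cast hT' _) (by positivity) (by positivity)
    calc |(n : ℤ) * (kk k (L i) : ℤ) - ∑ j, (kk k (P j) : ℤ) * (sg * cc j (L i))|
        ≤ |(n : ℤ) * (kk k (L i) : ℤ)| + |∑ j, (kk k (P j) : ℤ) * (sg * cc j (L i))| :=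
          abs_sub _ _
      _ ≤ (M : ℤ) * T + d * ((M : ℤ) * T) := by
          refine add_le_add e1 ((Finset.abs_sum_le_sum_abs _ _).trans
            ((Finset.sum_le_card_nsmul _ _ _ e2).trans (le_of_eq ?_)))
          rw [Finset.card_univ, Fintype.card_fin, nsmul_eq_mul]
      _ ≤ (((J.card + 1) * T * M : ℕ) : ℤ) := by
          push_cast
          have h1 : (0 : ℤ) ≤ (M : ℤ) * T := by positivity
          have h2 : (d : ℤ) ≤ J.card := by exact_mod_cast hdJ
          nlinarith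
  · intro k _ i
    show (n : ℤ_[q]) * w k (L i) = ((nu k (L i) : ℤ) : ℤ_[q])
    rw [hw, hnu]
    push_cast
    rw [mul_sub, Finset.mul_sum]
    congr 1
    refine Finset.sum_congr rfl fun j _ => ?_
    rw [← hccC, hnΔ]
    ring
  · exact (Nat.le_add_right 1 _)
  · rw [Nat.add_sub_cancel_left]
    exact dvd_qh q
  · intro k hk k' hk'
    obtain ⟨-, hk2⟩ := hKaq k hk
    obtain ⟨-, hk2'⟩ := hKaq k' hk'
    have hpi : ∀ k : Q → ℕ, ∏ p ∈ Q, p ^ kk k p = ∏ p : Q, (p : ℕ) ^ k p := by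
      intro k
      rw [← Finset.prod_coe_sort Q (fun p => p ^ kk k p)]
      exact Finset.prod_congr rfl fun p _ => by rw [hkkQ]
    obtain ⟨z, hz1, hz2⟩ := hLPR q e ζ0 ℕ Q id (kk k) (kk k') hq.1 hζ0
      (fun p hp => (hJ p (hQJ hp)).2)
      (by
        simp only [id]
        rw [hpi, hpi]
        exact hk2.trans hk2'.symm)
    simp only [id] at hz1 hz2
    rw [hpi, hpi] at hz1
    -- the value of the linear form
    have hlin : ∀ k : Q → ℕ, (q : ℤ_[q]) ^ (e - 3) ∣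
        (q : ℤ_[q]) ^ κ0 * ∑ p ∈ Q, (kk k p : ℤ_[q]) * (ζ0 p : ℤ_[q]) -
          (q : ℤ_[q]) ^ κ0 * ∑ i, w k (L i) * (ζ0 (L i) : ℤ_[q]) := by
      intro k
      have hQU : ∑ p ∈ Q, (kk k p : ℤ_[q]) * (ζ0 p : ℤ_[q]) =
          ∑ l : J, (kk k l : ℤ_[q]) * (ζ0 l : ℤ_[q]) := by
        rw [Finset.sum_coe_sort J (fun p => (kk k p : ℤ_[q]) * (ζ0 p : ℤ_[q]))]
        refine Finset.sum_subset hQJ ?_
        intro p _ hpQ
        have : kk k p = 0 := by
          rw [hkk]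
          beta_reduce
          rw [dif_neg hpQ]
        rw [this]
        simp
      have hwC : ∑ i, w k (L i) * (ζ0 (L i) : ℤ_[q]) =
          ∑ l ∈ Co, (kk k l : ℤ_[q]) * (ζ0 l : ℤ_[q]) -
          ∑ j, (kk k (P j) : ℤ_[q]) * ∑ l ∈ Co, C j l * (ζ0 l : ℤ_[q]) := by
        rw [← hLsum fun l => w k l * (ζ0 l : ℤ_[q]), hw]
        simp only [sub_mul, Finset.sum_sub_distrib, Finset.sum_mul, Finset.mul_sum]
        congr 1
        rw [Finset.sum_comm]
        exact Finset.sum_congr rfl fun j _ => Finset.sum_congr rfl fun l _ => by ring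
      have hcj : ∀ j, (Δ : ℤ_[q]) * ((ζ0 (P j) : ℤ_[q]) + ∑ l ∈ Co, C j l * (ζ0 l : ℤ_[q])) =
          ∑ l : J, (cc j l : ℤ_[q]) * (ζ0 l : ℤ_[q]) := by
        intro j
        rw [hUsum, mul_add, Finset.mul_sum, add_comm]
        congr 1
        · exact Finset.sum_congr rfl fun l _ => by rw [← hccC]; ring
        · rw [Finset.sum_eq_single j]
          · rw [hccP, if_pos rfl]
          · intro j' _ hj'
            rw [hccP, if_neg (Ne.symm hj')]
            simp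
          · intro h
            exact absurd (Finset.mem_univ j) h
      have hfin : (q : ℤ_[q]) ^ κ0 * ∑ p ∈ Q, (kk k p : ℤ_[q]) * (ζ0 p : ℤ_[q]) -
          (q : ℤ_[q]) ^ κ0 * ∑ i, w k (L i) * (ζ0 (L i) : ℤ_[q]) =
          ∑ j, (sg : ℤ_[q]) * u * (kk k (P j) : ℤ_[q]) *
            ∑ l : J, (cc j l : ℤ_[q]) * (ζ0 l : ℤ_[q]) := by
        rw [hQU, hwC, hUsum]
        have h1 : ∀ j, (sg : ℤ_[q]) * u * (kk k (P j) : ℤ_[q]) *
            ∑ l : J, (cc j l : ℤ_[q]) * (ζ0 l : ℤ_[q]) =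
            (q : ℤ_[q]) ^ κ0 * ((kk k (P j) : ℤ_[q]) * (ζ0 (P j) : ℤ_[q])) +
            (q : ℤ_[q]) ^ κ0 * ((kk k (P j) : ℤ_[q]) * ∑ l ∈ Co, C j l * (ζ0 l : ℤ_[q])) := by
          intro j
          rw [← hcj j, ← hu, hnΔ]
          ring
        rw [Finset.sum_congr rfl fun j _ => h1 j, Finset.sum_add_distrib, ← Finset.mul_sum,
          ← Finset.mul_sum]
        ring
      rw [hfin]
      exact Finset.dvd_sum fun j _ => Dvd.dvd.mul_left (hrelc j) _
    refine ⟨z, ?_, ?_⟩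
    · have h4 := cast_modEq q hz1
      refine (pow_dvd_pow (q : ℤ_[q]) (Nat.sub_le e 3)).trans ?_
      push_cast
      push_cast at h4
      exact h4
    · have h4 := cast_modEq q hz2
      push_cast at h4
      have h4' : (q : ℤ_[q]) ^ (e - 3) ∣ ∑ p ∈ Q, (kk k p : ℤ_[q]) * (ζ0 p : ℤ_[q]) -
          (∑ p ∈ Q, (kk k' p : ℤ_[q]) * (ζ0 p : ℤ_[q]) + (ph q : ℤ_[q]) * (z : ℤ_[q])) :=
        (pow_dvd_pow _ (by omega)).trans h4
      have hs : ∑ i, θ * (q : ℤ_[q]) ^ κ0 * (ζ0 (L i) : ℤ_[q]) * (w k (L i) - w k' (L i)) =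
          θ * ((q : ℤ_[q]) ^ κ0 * ∑ i, w k (L i) * (ζ0 (L i) : ℤ_[q])) -
          θ * ((q : ℤ_[q]) ^ κ0 * ∑ i, w k' (L i) * (ζ0 (L i) : ℤ_[q])) := by
        rw [Finset.mul_sum, Finset.mul_sum, Finset.mul_sum, Finset.mul_sum,
          ← Finset.sum_sub_distrib]
        refine Finset.sum_congr rfl fun j _ => ?_
        ring
      have key : (q : ℤ_[q]) ^ (κ0 + 1) * (z : ℤ_[q]) -
          ∑ i, θ * (q : ℤ_[q]) ^ κ0 * (ζ0 (L i) : ℤ_[q]) * (w k (L i) - w k' (L i)) =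
          θ * ((q : ℤ_[q]) ^ κ0 * ∑ p ∈ Q, (kk k p : ℤ_[q]) * (ζ0 p : ℤ_[q]) -
            (q : ℤ_[q]) ^ κ0 * ∑ i, w k (L i) * (ζ0 (L i) : ℤ_[q])) -
          θ * ((q : ℤ_[q]) ^ κ0 * ∑ p ∈ Q, (kk k' p : ℤ_[q]) * (ζ0 p : ℤ_[q]) -
            (q : ℤ_[q]) ^ κ0 * ∑ i, w k' (L i) * (ζ0 (L i) : ℤ_[q])) -
          θ * (q : ℤ_[q]) ^ κ0 * (∑ p ∈ Q, (kk k p : ℤ_[q]) * (ζ0 p : ℤ_[q]) -
            (∑ p ∈ Q, (kk k' p : ℤ_[q]) * (ζ0 p : ℤ_[q]) + (ph q : ℤ_[q]) * (z : ℤ_[q]))) := by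
        have h7 : (q : ℤ_[q]) ^ (κ0 + 1) = (q : ℤ_[q]) ^ κ0 * ((ph q : ℤ_[q]) * θ) := by
          rw [hθ, pow_succ]
        rw [hs, h7]
        ring
      rw [key]
      exact dvd_sub (dvd_sub (Dvd.dvd.mul_left (hlin k) _) (Dvd.dvd.mul_left (hlin k') _))
        (Dvd.dvd.mul_left h4' _)
  · intro s s'
    refine ⟨(fun p => (s p : ℚ_[q])) - fun p => (s' p : ℚ_[q]), ?_⟩
    funext i
    rw [map_sub, Pi.sub_apply, hφ, hφ]
    have h1 : ∀ (s : Q → ℕ) (l : J), ex (fun p => (s p : ℚ_[q])) l = ((kk s l : ℕ) : ℚ_[q]) := by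
      intro s l
      rw [hex, hkk]
      beta_reduce
      split_ifs <;> simp
    simp only [h1]
    show _ = ((w s (L i) - w s' (L i) : ℤ_[q]) : ℚ_[q])
    rw [hw]
    simp only [PadicInt.coe_sub, PadicInt.coe_sum, PadicInt.coe_mul, PadicInt.coe_natCast]
  · have h1 := LinearMap.finrank_range_add_finrank_ker φ
    rw [Module.finrank_fintype_fun_eq_card, Fintype.card_coe] at h1
    omega

end Pool.Agent.H38.AG
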