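import Pool.Agent.H38.AG.Targets
import Pool.Agent.H59.AB.SEL3b

/-!
# Board `allg_modules`, module RED: the triples which are not reduced
-/

set_option autoImplicit false

open Pool.Agent.H38.RB Pool.Agent.H38.PS Pool.Agent.H82.RD Pool.Agent.H38.AB Pool.Agent.H38.AG
open Pool.Agent.H59.AB (primes_pr disj)

namespace Pool.Agent.H38.AG

theorem pd_pos1 {S : Finset ℕ} (hS : ∀ p ∈ S, p.Prime) : 1 ≤ pd S :=
  Finset.prod_pos fun p hp => (hS p hp).pos

theorem pd_filter_pr {x : Fin 3 → ℤ} (hx : Adm x) (P : ℕ → Prop) [DecidablePred P] :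
    pd ((pr x).primeFactors.filter P) = ∏ i, pd ((x i).natAbs.primeFactors.filter P) := by
  unfold pd
  rw [primes_pr hx, Finset.filter_biUnion, Finset.prod_biUnion]
  intro i _ j _ hij
  exact (disj hx hij).mono (Finset.filter_subset _ _) (Finset.filter_subset _ _)

theorem pd_mono {S T : Finset ℕ} (hST : S ⊆ T) (hT : ∀ p ∈ T, p.Prime) : pd S ≤ pd T :=
  Finset.prod_le_prod_of_subset_of_one_le' hST fun p hp _ => (hT p hp).one_lt.le

theorem pf_RED (hRD1 : T_RD1) (hRD2 : T_RD2) (hOMG : T_OMG) (hTFI : T_TFI) : T_RED := by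
  classical
  intro ρ hρ
  obtain ⟨K, δ, X₀, hK, hδ, hδθ, hX₀, hO⟩ := hOMG (ρ / 3) (by positivity)
  obtain ⟨c₁, ca, Ca, hc₁, hca, hCa, h2⟩ := hRD2 K δ (by linarith) hδ
  obtain ⟨cb, Cb, hcb, hCb, h1⟩ := hRD1 (min c₁ ρ) (lt_min hc₁ hρ)
  obtain ⟨Cf, hCf, hF⟩ := hTFI 1 one_pos
  obtain ⟨c, hc⟩ : ∃ c : ℝ, c = min (min ca cb) (1 / 2) := ⟨_, rfl⟩
  have hc0 : 0 < c := by rw [hc]; exact lt_min (lt_min hca hcb) (by norm_num)
  have hcca : c ≤ ca := by rw [hc]; exact (min_le_left _ _).trans (min_le_left _ _)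
  have hccb : c ≤ cb := by rw [hc]; exact (min_le_left _ _).trans (min_le_right _ _)
  have hc2 : c ≤ 1 / 2 := by rw [hc]; exact min_le_right _ _
  obtain ⟨X₁, hX₁⟩ : ∃ X₁ : ℝ, X₁ = max X₀ 3 := ⟨_, rfl⟩
  have hX₁0 : X₀ ≤ X₁ := by rw [hX₁]; exact le_max_left _ _
  have hX₁3 : 3 ≤ X₁ := by rw [hX₁]; exact le_max_right _ _
  have hX₁pos : 0 < X₁ := by linarith
  refine ⟨c, Ca + Cb + Cf * X₁ ^ (2 / 3 + 1 : ℝ), hc0, by positivity, fun X hX => ?_⟩
  have hX0 : 0 < X := by linarith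
  have hX1 : 1 ≤ X := by linarith
  have hXp : 0 ≤ X ^ (2 / 3 - c) := (Real.rpow_pos_of_pos hX0 _).le
  have hXp1 : 1 ≤ X ^ (2 / 3 - c) := Real.one_le_rpow hX1 (by linarith)
  have hfin : {x | Adm x ∧ (pd (pr x).primeFactors : ℝ) ≤ X ∧ x ∉ Rd X ρ}.Finite :=
    (hF X hX1).1.subset fun x hx => ⟨hx.1, hx.2.1⟩
  refine ⟨hfin, ?_⟩
  rcases lt_or_ge X X₁ with hlt | hge
  · have h3 : ({x | Adm x ∧ (pd (pr x).primeFactors : ℝ) ≤ X ∧ x ∉ Rd X ρ}.ncard : ℝ) ≤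
        ({x | Adm x ∧ (pd (pr x).primeFactors : ℝ) ≤ X}.ncard : ℝ) := by
      have hs : {x | Adm x ∧ (pd (pr x).primeFactors : ℝ) ≤ X ∧ x ∉ Rd X ρ} ⊆
          {x | Adm x ∧ (pd (pr x).primeFactors : ℝ) ≤ X} := fun x hx => ⟨hx.1, hx.2.1⟩
      exact_mod_cast Set.ncard_le_ncard hs (hF X hX1).1
    refine h3.trans ((hF X hX1).2.trans ?_)
    have h4 : X ^ (2 / 3 + 1 : ℝ) ≤ X₁ ^ (2 / 3 + 1 : ℝ) :=
      Real.rpow_le_rpow hX0.le hlt.le (by norm_num)
    calc Cf * X ^ (2 / 3 + 1 : ℝ) ≤ Cf * X₁ ^ (2 / 3 + 1 : ℝ) :=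
          mul_le_mul_of_nonneg_left h4 hCf.le
      _ ≤ (Ca + Cb + Cf * X₁ ^ (2 / 3 + 1 : ℝ)) * 1 := by linarith
      _ ≤ _ := mul_le_mul_of_nonneg_left hXp1 (by positivity)
  · have hX3 : 3 ≤ X := by linarith
    have hsub : {x | Adm x ∧ (pd (pr x).primeFactors : ℝ) ≤ X ∧ x ∉ Rd X ρ} ⊆
        {x | Adm x ∧ (pd (pr x).primeFactors : ℝ) ≤ X ∧
          ∃ i, (pd (x i).natAbs.primeFactors : ℝ) ≤ X ^ (1 / 3 - min c₁ ρ)} ∪
        {x | Adm x ∧ (pd (pr x).primeFactors : ℝ) ≤ X ∧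
          (∀ i, X ^ (1 / 3 - c₁) ≤ (pd (x i).natAbs.primeFactors : ℝ)) ∧
          ∃ i, X ^ δ ≤ (pd ((x i).natAbs.primeFactors.filter
            fun p => (p : ℝ) ≤ Real.log X ^ K) : ℝ)} := by
      rintro x ⟨hx, hR, hn⟩
      by_contra hcon
      rw [Set.mem_union, not_or] at hcon
      obtain ⟨hn1, hn2⟩ := hcon
      have e1 : ∀ i, X ^ (1 / 3 - min c₁ ρ) < (pd (x i).natAbs.primeFactors : ℝ) := by
        intro i
        by_contra h
        exact hn1 ⟨hx, hR, i, not_lt.1 h⟩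
      have e2 : ∀ i, X ^ (1 / 3 - c₁) ≤ (pd (x i).natAbs.primeFactors : ℝ) := fun i =>
        (Real.rpow_le_rpow_of_exponent_le hX1 (by linarith [min_le_left c₁ ρ])).trans (e1 i).le
      have e3 : ∀ i, X ^ (1 / 3 - ρ) ≤ (pd (x i).natAbs.primeFactors : ℝ) := fun i =>
        (Real.rpow_le_rpow_of_exponent_le hX1 (by linarith [min_le_right c₁ ρ])).trans (e1 i).le
      have e4 : ∀ i, (pd ((x i).natAbs.primeFactors.filter
          fun p => (p : ℝ) ≤ Real.log X ^ K) : ℝ) < X ^ δ := by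
        intro i
        by_contra h
        exact hn2 ⟨hx, hR, e2, i, not_lt.1 h⟩
      have hpr : ∀ p ∈ (pr x).primeFactors, p.Prime := fun p hp =>
        Nat.prime_of_mem_primeFactors hp
      have e5 : (pd ((pr x).primeFactors.filter fun p => (p : ℝ) ≤ Real.log X ^ K) : ℝ) ≤
          X ^ (3 * δ) := by
        rw [pd_filter_pr hx, Nat.cast_prod]
        calc ∏ i, (pd ((x i).natAbs.primeFactors.filter
              fun p => (p : ℝ) ≤ Real.log X ^ K) : ℝ) ≤ ∏ _i : Fin 3, X ^ δ :=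
              Finset.prod_le_prod (fun i _ => Nat.cast_nonneg _) fun i _ => (e4 i).le
          _ = X ^ (3 * δ) := by
              rw [Finset.prod_const, Finset.card_univ, Fintype.card_fin, ← Real.rpow_natCast,
                ← Real.rpow_mul hX0.le]
              congr 1
              push_cast
              ring
      have hlog : 1 ≤ Real.log X := by
        rw [Real.le_log_iff_exp_le hX0]
        linarith [Real.exp_one_lt_d9]
      have e6 := hO X (pr x).primeFactors (hX₁0.trans hge) hpr hR e5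
      refine hn ⟨hx, hR, e3, ?_, ?_⟩
      · have hpowle : Real.log X ^ (30 : ℕ) ≤ Real.log X ^ K := by
          rw [← Real.rpow_natCast]
          exact Real.rpow_le_rpow_of_exponent_le hlog (by push_cast; linarith)
        have h5 : pd ((pr x).primeFactors.filter fun p => (p : ℝ) ≤ Real.log X ^ 30) ≤
            pd ((pr x).primeFactors.filter fun p => (p : ℝ) ≤ Real.log X ^ K) := by
          refine pd_mono (fun p hp => ?_) fun p hp => hpr p (Finset.mem_filter.1 hp).1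
          obtain ⟨h6, h7⟩ := Finset.mem_filter.1 hp
          exact Finset.mem_filter.2 ⟨h6, h7.trans hpowle⟩
        calc (pd ((pr x).primeFactors.filter fun p => (p : ℝ) ≤ Real.log X ^ 30) : ℝ)
            ≤ (pd ((pr x).primeFactors.filter fun p => (p : ℝ) ≤ Real.log X ^ K) : ℝ) := by
              exact_mod_cast h5
          _ ≤ X ^ (3 * δ) := e5
          _ ≤ X ^ ρ := Real.rpow_le_rpow_of_exponent_le hX1 (by linarith)
      · refine e6.trans (mul_le_mul_of_nonneg_right (by linarith) (by linarith))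
    have hf1 := h1 X hX1
    have hf2 := h2 X hX3
    have h3 := (Set.ncard_le_ncard hsub (hf1.1.union hf2.1)).trans (Set.ncard_union_le _ _)
    have h4 : ({x | Adm x ∧ (pd (pr x).primeFactors : ℝ) ≤ X ∧ x ∉ Rd X ρ}.ncard : ℝ) ≤
        Cb * X ^ (2 / 3 - cb) + Ca * X ^ (2 / 3 - ca) := by
      have h5 : ({x | Adm x ∧ (pd (pr x).primeFactors : ℝ) ≤ X ∧ x ∉ Rd X ρ}.ncard : ℝ) ≤
          (({x | Adm x ∧ (pd (pr x).primeFactors : ℝ) ≤ X ∧
          ∃ i, (pd (x i).natAbs.primeFactors : ℝ) ≤ X ^ (1 / 3 - min c₁ ρ)}.ncard : ℕ) : ℝ) +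
          (({x | Adm x ∧ (pd (pr x).primeFactors : ℝ) ≤ X ∧
          (∀ i, X ^ (1 / 3 - c₁) ≤ (pd (x i).natAbs.primeFactors : ℝ)) ∧
          ∃ i, X ^ δ ≤ (pd ((x i).natAbs.primeFactors.filter
            fun p => (p : ℝ) ≤ Real.log X ^ K) : ℝ)}.ncard : ℕ) : ℝ) := by
        exact_mod_cast h3
      linarith [hf1.2, hf2.2]
    have h6 : X ^ (2 / 3 - cb) ≤ X ^ (2 / 3 - c) :=
      Real.rpow_le_rpow_of_exponent_le hX1 (by linarith)
    have h7 : X ^ (2 / 3 - ca) ≤ X ^ (2 / 3 - c) :=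
      Real.rpow_le_rpow_of_exponent_le hX1 (by linarith)
    have h8 := mul_le_mul_of_nonneg_left h6 hCb.le
    have h9 := mul_le_mul_of_nonneg_left h7 hCa.le
    have h10 : 0 ≤ Cf * X₁ ^ (2 / 3 + 1 : ℝ) * X ^ (2 / 3 - c) := by positivity
    calc _ ≤ Cb * X ^ (2 / 3 - cb) + Ca * X ^ (2 / 3 - ca) := h4
      _ ≤ Cb * X ^ (2 / 3 - c) + Ca * X ^ (2 / 3 - c) := add_le_add h8 h9
      _ ≤ (Ca + Cb + Cf * X₁ ^ (2 / 3 + 1 : ℝ)) * X ^ (2 / 3 - c) := by linarith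

end Pool.Agent.H38.AG
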