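import Pool.Agent.H38.AB.All
import Pool.Agent.H82.RD.All4
import Pool.Agent.H38.AG.Glue
import Pool.Agent.H38.AG.RDH
import Pool.Agent.H38.AG.RED
import Pool.Agent.H38.AG.CJG
import Pool.Agent.H3.AG.ROJ
import Pool.Agent.H3.AG.SLK
import Pool.Agent.H11.AG.RLP
import Pool.Agent.H13.AG.FIP
import Pool.Agent.H14.AG.RLL
import Pool.Agent.H14.AG.TUP
import Pool.Agent.H29.AG.EN1
import Pool.Agent.H33.AG.OMG
import Pool.Agent.H34.AG.BPK
import Pool.Agent.H34.AG.EGW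
import Pool.Agent.H39.AG.K3C
import Pool.Agent.H39.AG.K4C
import Pool.Agent.H47.AG.RD1
import Pool.Agent.H47.AG.SLS
import Pool.Agent.H49.AG.HGW
import Pool.Agent.H50.AG.BOX
import Pool.Agent.H50.AG.RKN
import Pool.Agent.H51.AG.PIV
import Pool.Agent.H55.AG.RD2
import Pool.Agent.H59.AG.GPL
import Pool.Agent.H59.AG.RGB
import Pool.Agent.H60.AG.ETS
import Pool.Agent.H60.AG.RLM
import Pool.Agent.H69.AG.K1C
import Pool.Agent.H74.AG.SLB
import Pool.Agent.H75.AG.ECM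
import Pool.Agent.H75.AG.RO1
import Pool.Agent.H79.AG.NUS
import Pool.Agent.H82.TG.RTA
import Pool.Agent.H83.AG.EDH
import Pool.Agent.H83.AG.RO2
import Pool.Agent.H93.AG.RGS
import Pool.Agent.H96.AG.CNG
import Pool.Agent.H98.AG.ENP
import Pool.Agent.H99.AG.MAT
import Pool.Agent.H99.AG.RC

/-!
# abc for 100 percent of all triples ordered by radical: assembly
-/

set_option autoImplicit false

open Pool.Agent.H38.RB Pool.Agent.H38.PS Pool.Agent.H82.RD Pool.Agent.H38.AB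

namespace Pool.Agent.H38.AG

theorem mrs : T_MRS := Pool.Agent.H79.RD.pf_MRS Pool.Agent.H79.RD.pf_UCO

theorem rdh : T_RDH := pf_RDH ldl lpr lrl Pool.Agent.H51.AG.pf_PIV

theorem rlm : T_RLM := Pool.Agent.H60.AG.pf_RLM rdh mrs mth

theorem rlp : T_RLP := Pool.Agent.H11.AG.pf_RLP rlm

theorem cng : T_CNG := Pool.Agent.H96.AG.pf_CNG rlp

theorem fip : T_FIP := Pool.Agent.H13.AG.pf_FIP fin4

theorem rd1 : T_RD1 := Pool.Agent.H47.AG.pf_RD1 fip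

theorem rd2 : T_RD2 := Pool.Agent.H55.AG.pf_RD2 fip Pool.Agent.H50.AG.pf_RKN

theorem egw : T_EGW := Pool.Agent.H34.AG.pf_EGW Pool.Agent.H49.AG.pf_HGW

theorem en1 : T_EN1 := Pool.Agent.H29.AG.pf_EN1 Pool.Agent.H50.AG.pf_BOX

theorem ecm : T_ECM := Pool.Agent.H75.AG.pf_ECM (Pool.Agent.H83.AG.pf_EDH ldl lpr lrl) mth

theorem enp : T_ENP := Pool.Agent.H98.AG.pf_ENP egw en1 ecm Pool.Agent.H50.AG.pf_BOX

theorem ro2 : T_RO2 := Pool.Agent.H83.AG.pf_RO2 enp Pool.Agent.H60.AG.pf_ETS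
  Pool.Agent.H50.AG.pf_BOX

theorem rll : T_RLL := Pool.Agent.H14.AG.pf_RLL rlm

theorem ro1 : T_RO1 :=
  Pool.Agent.H75.AG.pf_RO1 (Pool.Agent.H3.AG.pf_ROJ Pool.Agent.H99.AG.pf_MAT rll)
    Pool.Agent.H14.AG.pf_TUP

theorem rc : T_RC := Pool.Agent.H99.AG.pf_RC ro1 ro2

theorem slk : T_SLK := Pool.Agent.H3.AG.pf_SLK Pool.Agent.H34.AG.pf_BPK

theorem slb : T_SLB := Pool.Agent.H74.AG.pf_SLB slk

theorem k1c : T_K1C := Pool.Agent.H69.AG.pf_K1C rc thb qr (COME com) tfi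

theorem rgb : T_RGB :=
  Pool.Agent.H59.AG.pf_RGB k1c (Pool.Agent.H39.AG.pf_K3C cng thb qr tfi)
    (Pool.Agent.H39.AG.pf_K4C cng thb qr tfi) slb lgt4 tfi

theorem cjg : T_CJG := pf_CJG nsu hau

theorem rgs : T_RGS :=
  Pool.Agent.H93.AG.pf_RGS cle cla cjg Pool.Agent.H79.AG.pf_NUS Pool.Agent.H47.AG.pf_SLS tfi

theorem red : T_RED := pf_RED rd1 rd2 Pool.Agent.H33.AG.pf_OMG tfi

theorem gpl : Pool.Agent.H82.TG.T_GPL :=
  Pool.Agent.H59.AG.pf_GPL red rgs rgb Pool.Agent.H82.TG.rt tfi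

end Pool.Agent.H38.AG
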